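import Mathlib

/-!
Polarisation of Hermitian identities between polynomials, and equality of spans.
-/

namespace Pool.Agent.Helper28.Ball

open MvPolynomial Finset ComplexConjugate

variable {σ : Type*}

/-- conjugate the coefficients -/
noncomputable def cj : MvPolynomial σ ℂ →+* MvPolynomial σ ℂ := MvPolynomial.map (starRingEnd ℂ)

lemma eval_cj (p : MvPolynomial σ ℂ) (w : σ → ℂ) :
    eval w (cj p) = conj (eval (fun i => conj (w i)) p) := by
  unfold cj
  induction p using MvPolynomial.induction_on with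
  | C a => simp
  | add p q hp hq => simp [hp, hq]
  | mul_X p i hp => simp [hp]

lemma eval_bind (sub : σ → MvPolynomial σ ℂ) (F : MvPolynomial σ ℂ) (v : σ → ℂ) :
    eval v (aeval sub F) = eval (fun s => eval v (sub s)) F := by
  induction F using MvPolynomial.induction_on with
  | C a => simp
  | add p q hp hq => simp only [map_add, hp, hq]
  | mul_X p i hp => simp only [map_mul, hp, aeval_X, eval_X]

/-- A polynomial in `(z, ω)` vanishing at all `(z, conj z)` vanishes identically. -/
theorem eq_zero_of_conj (F : MvPolynomial (σ ⊕ σ) ℂ)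
    (h : ∀ z : σ → ℂ, eval (Sum.elim z (fun i => conj (z i))) F = 0) (v : σ ⊕ σ → ℂ) :
    eval v F = 0 := by
  let sub : σ ⊕ σ → MvPolynomial (σ ⊕ σ) ℂ := fun s =>
    Sum.elim (fun i => X (Sum.inl i) + C Complex.I * X (Sum.inr i))
      (fun i => X (Sum.inl i) - C Complex.I * X (Sum.inr i)) s
  have hG : aeval sub F = 0 := by
    apply MvPolynomial.funext_set (fun _ => Set.range (fun x : ℝ => (x : ℂ)))
      (fun _ => Set.infinite_range_of_injective Complex.ofReal_injective)
    intro x hx
    rw [map_zero, eval_bind]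
    have hx' : ∀ s, ∃ r : ℝ, (r : ℂ) = x s := fun s => hx s (Set.mem_univ s)
    choose r hr using hx'
    have := h (fun i => x (Sum.inl i) + Complex.I * x (Sum.inr i))
    have hv : (fun s => eval x (sub s)) =
        Sum.elim (fun i => x (Sum.inl i) + Complex.I * x (Sum.inr i)) fun i =>
        (starRingEnd ℂ) (x (Sum.inl i) + Complex.I * x (Sum.inr i)) := ?_
    · rw [hv, this]
    funext s
    rcases s with i | i
    · simp [sub]
    · simp only [sub, Sum.elim_inr, map_sub, eval_X, map_mul, eval_C]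
      rw [map_add, map_mul, Complex.conj_I, ← hr, ← hr, Complex.conj_ofReal, Complex.conj_ofReal]
      ring
  have h1 := eval_bind sub F (Sum.elim (fun i => (v (Sum.inl i) + v (Sum.inr i)) / 2)
    (fun i => (v (Sum.inl i) - v (Sum.inr i)) / (2 * Complex.I)))
  rw [hG, map_zero] at h1
  have hv : v = (fun s => (eval
          (Sum.elim (fun i => (v (Sum.inl i) + v (Sum.inr i)) / 2) fun i =>
            (v (Sum.inl i) - v (Sum.inr i)) / (2 * Complex.I)))
        (sub s)) := ?_
  · rw [← hv] at h1
    exact h1.symm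
  funext s
  have hI : Complex.I ≠ 0 := Complex.I_ne_zero
  rcases s with i | i
  · simp only [sub, Sum.elim_inl, map_add, eval_X, map_mul, eval_C, Sum.elim_inr]
    field_simp
    ring
  · simp only [sub, Sum.elim_inl, map_sub, eval_X, map_mul, eval_C, Sum.elim_inr]
    field_simp
    ring

/-- Polarisation. -/
theorem polar {ι κ : Type*} [Fintype ι] [Fintype κ] (A : ι → MvPolynomial σ ℂ)
    (B : κ → MvPolynomial σ ℂ)
    (h : ∀ z, ∑ i, ‖eval z (A i)‖ ^ 2 = ∑ j, ‖eval z (B j)‖ ^ 2) (z w : σ → ℂ) :
    ∑ i, eval z (A i) * conj (eval w (A i)) = ∑ j, eval z (B j) * conj (eval w (B j)) := by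
  let F : MvPolynomial (σ ⊕ σ) ℂ :=
    ∑ i, rename Sum.inl (A i) * rename Sum.inr (cj (A i)) -
      ∑ j, rename Sum.inl (B j) * rename Sum.inr (cj (B j))
  have hF : ∀ z ω : σ → ℂ, eval (Sum.elim z ω) F =
      ∑ i, eval z (A i) * eval ω (cj (A i)) - ∑ j, eval z (B j) * eval ω (cj (B j)) := by
    intro z ω
    simp only [F, map_sub, map_sum, map_mul, eval_rename]
    rfl
  have h0 : ∀ z : σ → ℂ, eval (Sum.elim z (fun i => conj (z i))) F = 0 := by
    intro z
    rw [hF]
    simp only [eval_cj, Complex.conj_conj, Complex.mul_conj, Complex.normSq_eq_norm_sq]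
    have := h z
    rw [← Complex.ofReal_sum, ← Complex.ofReal_sum, this, sub_self]
  have h1 := eq_zero_of_conj F h0 (Sum.elim z (fun i => conj (w i)))
  rw [hF] at h1
  simp only [eval_cj, Complex.conj_conj] at h1
  exact sub_eq_zero.1 h1

/-- Equal Hermitian forms have equal spans (one inclusion). -/
theorem span_le {ι κ : Type*} [Fintype ι] [Fintype κ] (A : ι → MvPolynomial σ ℂ)
    (B : κ → MvPolynomial σ ℂ)
    (h : ∀ z, ∑ i, ‖eval z (A i)‖ ^ 2 = ∑ j, ‖eval z (B j)‖ ^ 2) :
    Submodule.span ℂ (Set.range A) ≤ Submodule.span ℂ (Set.range B) := by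
  rw [Submodule.span_le]
  rintro _ ⟨i0, rfl⟩
  by_contra hni
  obtain ⟨l, hl1, hl2⟩ := Submodule.exists_le_ker_of_notMem hni
  have hB : ∀ j, l (B j) = 0 := fun j =>
    LinearMap.mem_ker.1 (hl2 (Submodule.subset_span ⟨j, rfl⟩))
  have h1 : ∀ w, ∑ i, conj (eval w (A i)) • A i = ∑ j, conj (eval w (B j)) • B j := by
    intro w
    apply MvPolynomial.funext
    intro z
    simp only [map_sum, smul_eval]
    have := polar A B h z w
    simpa [mul_comm] using this
  have h2 : ∀ w, ∑ i, conj (eval w (A i)) * l (A i) = 0 := by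
    intro w
    have := congrArg l (h1 w)
    simpa [map_sum, hB] using this
  have h3 : ∑ i, conj (l (A i)) • A i = 0 := by
    apply MvPolynomial.funext
    intro w
    simp only [map_sum, smul_eval, map_zero]
    have := congrArg conj (h2 w)
    simpa [map_sum, mul_comm] using this
  have h4 := congrArg l h3
  simp only [map_sum, map_smul, smul_eq_mul, map_zero] at h4
  have h5 : ∑ i, (‖l (A i)‖ ^ 2 : ℝ) = 0 := by
    have : ((∑ i, (‖l (A i)‖ ^ 2 : ℝ) : ℝ) : ℂ) = 0 := by
      rw [← h4]
      push_cast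
      refine Finset.sum_congr rfl fun i _ => ?_
      rw [mul_comm, Complex.mul_conj, Complex.normSq_eq_norm_sq]
      push_cast
      rfl
    exact_mod_cast this
  have h6 := (Finset.sum_eq_zero_iff_of_nonneg (fun i _ => sq_nonneg _)).1 h5 i0 (Finset.mem_univ _)
  rw [sq_eq_zero_iff, norm_eq_zero] at h6
  exact hl1 h6

end Pool.Agent.Helper28.Ball
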