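import Mathlib

/-!
Proper monomial maps between balls.
-/

namespace Pool.Agent.Helper28.Ball

open MvPolynomial Finset

/-- `p / q` (in lowest terms, `q` without zeros in the ball) is a proper map from the unit ball of
`ℂ^n` to the unit ball of `ℂ^N`. -/
def IsProperMap {n N : ℕ} (p : Fin N → MvPolynomial (Fin n) ℂ) (q : MvPolynomial (Fin n) ℂ) :
    Prop :=
  (∀ r : MvPolynomial (Fin n) ℂ, r ∣ q → (∀ j, r ∣ p j) → IsUnit r) ∧
  (∀ z : Fin n → ℂ, ∑ i, ‖z i‖ ^ 2 < 1 → eval z q ≠ 0) ∧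
  (∀ z : Fin n → ℂ, ∑ i, ‖z i‖ ^ 2 < 1 → ∑ j, ‖eval z (p j) / eval z q‖ ^ 2 < 1) ∧
  (∀ K : Set (Fin N → ℂ), IsCompact K → K ⊆ {w | ∑ j, ‖w j‖ ^ 2 < 1} →
    IsCompact ({z : Fin n → ℂ | ∑ i, ‖z i‖ ^ 2 < 1} ∩
      (fun z => fun j => eval z (p j) / eval z q) ⁻¹' K))

/-- Degree of the map `p / q` in lowest terms. -/
noncomputable def mapDegree {n N : ℕ} (p : Fin N → MvPolynomial (Fin n) ℂ)
    (q : MvPolynomial (Fin n) ℂ) : ℕ :=
  max q.totalDegree (Finset.univ.sup fun j => (p j).totalDegree)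

lemma closedBall_compact (n : ℕ) : IsCompact {z : Fin n → ℂ | ∑ i, ‖z i‖ ^ 2 ≤ 1} := by
  have hcl : IsClosed {z : Fin n → ℂ | ∑ i, ‖z i‖ ^ 2 ≤ 1} := by
    apply isClosed_le
    · fun_prop
    · exact continuous_const
  have hsub : {z : Fin n → ℂ | ∑ i, ‖z i‖ ^ 2 ≤ 1} ⊆ Metric.closedBall 0 1 := by
    intro z hz
    rw [mem_closedBall_zero_iff, pi_norm_le_iff_of_nonneg zero_le_one]
    intro i
    have h1 : ‖z i‖ ^ 2 ≤ 1 :=
      (Finset.single_le_sum (f := fun i => ‖z i‖ ^ 2) (fun j _ => sq_nonneg _)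
        (Finset.mem_univ i)).trans hz
    nlinarith [norm_nonneg (z i)]
  exact (isCompact_closedBall 0 1).of_isClosed_subset hcl hsub

lemma isProperMap_of_sphere {n N : ℕ} (p : Fin N → MvPolynomial (Fin n) ℂ)
    (h1 : ∀ z : Fin n → ℂ, ∑ i, ‖z i‖ ^ 2 = 1 → ∑ j, ‖eval z (p j)‖ ^ 2 = 1)
    (h2 : ∀ z : Fin n → ℂ, ∑ i, ‖z i‖ ^ 2 < 1 → ∑ j, ‖eval z (p j)‖ ^ 2 < 1) :
    IsProperMap p 1 := by
  refine ⟨fun r hr _ => isUnit_of_dvd_one hr, fun z _ => by simp, fun z hz => ?_, ?_⟩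
  · simpa using h2 z hz
  · intro K hK hKs
    have hcont : Continuous (fun z : Fin n → ℂ => fun j => eval z (p j)) := by
      refine continuous_pi fun j => ?_
      exact MvPolynomial.continuous_eval (p j)
    have heq : {z : Fin n → ℂ | ∑ i, ‖z i‖ ^ 2 < 1} ∩
        (fun z => fun j => eval z (p j) / eval z (1 : MvPolynomial (Fin n) ℂ)) ⁻¹' K =
        {z : Fin n → ℂ | ∑ i, ‖z i‖ ^ 2 ≤ 1} ∩ (fun z => fun j => eval z (p j)) ⁻¹' K := by
      ext z
      simp only [Set.mem_inter_iff, Set.mem_preimage, map_one, div_one]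
      constructor
      · rintro ⟨ha, hb⟩
        refine ⟨?_, hb⟩
        have ha' : ∑ i, ‖z i‖ ^ 2 < 1 := ha
        show ∑ i, ‖z i‖ ^ 2 ≤ 1
        exact ha'.le
      · rintro ⟨ha, hb⟩
        refine ⟨?_, hb⟩
        have ha' : ∑ i, ‖z i‖ ^ 2 ≤ 1 := ha
        show ∑ i, ‖z i‖ ^ 2 < 1
        refine lt_of_le_of_ne ha' ?_
        intro hone
        have h3 := hKs hb
        have h4 : ∑ j, ‖eval z (p j)‖ ^ 2 < 1 := h3
        rw [h1 z hone] at h4
        exact lt_irrefl _ h4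
    rw [heq]
    exact (closedBall_compact n).inter_right (hK.isClosed.preimage hcont)

/-- A family of monomials with positive weights adding up to one on the simplex gives a proper
monomial map. -/
theorem exists_of_family {n N e : ℕ} {T : Type} [Fintype T] (hcard : Fintype.card T ≤ N)
    (m : T → (Fin n →₀ ℕ)) (w : T → ℝ) (hw : ∀ t, 0 < w t) (hm : ∀ t, m t ≠ 0)
    (hS : ∀ x : Fin n → ℝ, (∀ i, 0 ≤ x i) → ∑ i, x i = 1 → ∑ t, w t * ∏ i, x i ^ (m t i) = 1)
    (hle : ∀ t, (m t).degree ≤ e) (heq : ∃ t, (m t).degree = e) :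
    ∃ p : Fin N → MvPolynomial (Fin n) ℂ, IsProperMap p 1 ∧
      (∀ j, ∃ (α : Fin n →₀ ℕ) (c : ℂ), p j = monomial α c) ∧ mapDegree p 1 = e := by
  classical
  obtain ⟨φ⟩ : Nonempty (T ↪ Fin N) := by
    apply Function.Embedding.nonempty_of_card_le
    simpa using hcard
  let P : T → MvPolynomial (Fin n) ℂ := fun t => monomial (m t) ((Real.sqrt (w t) : ℝ) : ℂ)
  let p : Fin N → MvPolynomial (Fin n) ℂ := fun j =>
    if h : ∃ t, φ t = j then P h.choose else monomial 0 0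
  have hpφ : ∀ t, p (φ t) = P t := by
    intro t
    have h : ∃ t', φ t' = φ t := ⟨t, rfl⟩
    simp only [p, dif_pos h]
    rw [φ.injective h.choose_spec]
  have hp0 : ∀ j, (¬ ∃ t, φ t = j) → p j = 0 := by
    intro j hj
    simp only [p, dif_neg hj, monomial_zero]
  have hsum : ∀ F : MvPolynomial (Fin n) ℂ → ℝ, F 0 = 0 → ∑ j, F (p j) = ∑ t, F (P t) := by
    intro F hF
    have h1 : ∑ t, F (P t) = ∑ j ∈ Finset.univ.map φ, F (p j) := by
      rw [Finset.sum_map]
      exact Finset.sum_congr rfl fun t _ => by rw [hpφ t]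
    rw [h1]
    symm
    apply Finset.sum_subset (Finset.subset_univ _)
    intro j _ hj
    rw [hp0 j, hF]
    rintro ⟨t, rfl⟩
    exact hj (Finset.mem_map_of_mem φ (Finset.mem_univ t))
  have hnorm : ∀ z : Fin n → ℂ, ∑ j, ‖eval z (p j)‖ ^ 2 =
      ∑ t, w t * ∏ i, (‖z i‖ ^ 2) ^ (m t i) := by
    intro z
    rw [hsum (fun q => ‖eval z q‖ ^ 2) (by simp)]
    refine Finset.sum_congr rfl fun t _ => ?_
    simp only [P]
    rw [eval_monomial, norm_mul, mul_pow, Complex.norm_real, Real.norm_eq_abs, sq_abs,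
      Real.sq_sqrt (hw t).le]
    congr 1
    rw [Finsupp.prod_fintype _ _ (by intro i; exact pow_zero _), norm_prod, ← Finset.prod_pow]
    refine Finset.prod_congr rfl fun i _ => ?_
    rw [norm_pow, ← pow_mul, ← pow_mul, mul_comm]
  refine ⟨p, isProperMap_of_sphere p ?_ ?_, ?_, ?_⟩
  · intro z hz
    rw [hnorm]
    exact hS _ (fun i => sq_nonneg _) hz
  · intro z hz
    rw [hnorm]
    set s := ∑ i, ‖z i‖ ^ 2 with hs
    have hs0 : 0 ≤ s := Finset.sum_nonneg fun i _ => sq_nonneg _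
    rcases hs0.eq_or_lt with h0 | hpos
    · have hz0 : ∀ i, ‖z i‖ ^ 2 = 0 := by
        intro i
        exact (Finset.sum_eq_zero_iff_of_nonneg (fun i _ => sq_nonneg _)).1 h0.symm i
          (Finset.mem_univ i)
      have : ∑ t, w t * ∏ i, (‖z i‖ ^ 2) ^ (m t i) = 0 := by
        refine Finset.sum_eq_zero fun t _ => ?_
        obtain ⟨i, hi⟩ := Finsupp.ne_iff.1 (hm t)
        rw [Finset.prod_eq_zero (Finset.mem_univ i), mul_zero]
        rw [hz0 i]
        exact zero_pow hi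
      rw [this]
      exact one_pos
    · have h3 : ∑ t, w t * ∏ i, (‖z i‖ ^ 2 / s) ^ (m t i) = 1 := by
        apply hS
        · intro i
          positivity
        · rw [← Finset.sum_div, ← hs, div_self hpos.ne']
      have h4 : ∀ t, w t * ∏ i, (‖z i‖ ^ 2) ^ (m t i) ≤
          s * (w t * ∏ i, (‖z i‖ ^ 2 / s) ^ (m t i)) := by
        intro t
        have h5 : ∏ i, (‖z i‖ ^ 2) ^ (m t i) =
            s ^ (m t).degree * ∏ i, (‖z i‖ ^ 2 / s) ^ (m t i) := by
          rw [Finsupp.degree_eq_sum, ← Finset.prod_pow_eq_pow_sum, ← Finset.prod_mul_distrib]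
          refine Finset.prod_congr rfl fun i _ => ?_
          rw [← mul_pow]
          congr 1
          field_simp
        rw [h5]
        have h6 : s ^ (m t).degree ≤ s := by
          have hdeg : (m t).degree ≠ 0 := by
            rw [Ne, Finsupp.degree_eq_zero_iff]
            exact hm t
          calc s ^ (m t).degree ≤ s ^ 1 :=
                pow_le_pow_of_le_one hs0 (le_of_lt hz) (Nat.one_le_iff_ne_zero.2 hdeg)
            _ = s := pow_one s
        have h7 : 0 ≤ w t * ∏ i, (‖z i‖ ^ 2 / s) ^ (m t i) := by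
          have := hw t
          positivity
        calc w t * (s ^ (m t).degree * ∏ i, (‖z i‖ ^ 2 / s) ^ (m t i))
            = s ^ (m t).degree * (w t * ∏ i, (‖z i‖ ^ 2 / s) ^ (m t i)) := by ring
          _ ≤ s * (w t * ∏ i, (‖z i‖ ^ 2 / s) ^ (m t i)) := mul_le_mul_of_nonneg_right h6 h7
      calc ∑ t, w t * ∏ i, (‖z i‖ ^ 2) ^ (m t i)
          ≤ ∑ t, s * (w t * ∏ i, (‖z i‖ ^ 2 / s) ^ (m t i)) := Finset.sum_le_sum fun t _ => h4 t
        _ = s := by rw [← Finset.mul_sum, h3, mul_one]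
        _ < 1 := hz
  · intro j
    by_cases h : ∃ t, φ t = j
    · exact ⟨_, _, by simp only [p, dif_pos h, P]; rfl⟩
    · exact ⟨0, 0, by simp only [p, dif_neg h]⟩
  · unfold mapDegree
    have htd : ∀ t, (P t).totalDegree = (m t).degree := by
      intro t
      simp only [P]
      rw [totalDegree_monomial _ (by
        rw [Ne, Complex.ofReal_eq_zero]
        exact (Real.sqrt_pos.2 (hw t)).ne')]
      rfl
    rw [totalDegree_one, Nat.zero_max]
    apply le_antisymm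
    · refine Finset.sup_le fun j _ => ?_
      by_cases h : ∃ t, φ t = j
      · obtain ⟨t, rfl⟩ := h
        rw [hpφ, htd]
        exact hle t
      · rw [hp0 j h, totalDegree_zero]
        exact Nat.zero_le _
    · obtain ⟨t, ht⟩ := heq
      rw [← ht, ← htd, ← hpφ]
      exact Finset.le_sup (f := fun j => (p j).totalDegree) (Finset.mem_univ (φ t))

end Pool.Agent.Helper28.Ball
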