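import Mathlib
import Pool.Agent.Helper28.Ball.Mono

/-!
Whitney maps and the sharp family for `n = 2`.
-/

namespace Pool.Agent.Helper28.Ball

open MvPolynomial Finset

lemma prod_single {n : ℕ} (x : Fin n → ℝ) (i : Fin n) (e : ℕ) :
    ∏ l, x l ^ ((Finsupp.single i e : Fin n →₀ ℕ) l) = x i ^ e := by
  rw [Finset.prod_eq_single i]
  · simp
  · intro l _ hl
    rw [Finsupp.single_eq_of_ne hl, pow_zero]
  · intro h
    exact absurd (Finset.mem_univ i) h

lemma prod_add {n : ℕ} (x : Fin n → ℝ) (α β : Fin n →₀ ℕ) :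
    ∏ l, x l ^ ((α + β) l) = (∏ l, x l ^ α l) * ∏ l, x l ^ β l := by
  rw [← Finset.prod_mul_distrib]
  refine Finset.prod_congr rfl fun l _ => ?_
  rw [Finsupp.add_apply, pow_add]

theorem whitney {k N e : ℕ} (he : 1 ≤ e) (hN : k * e + 1 ≤ N) :
    ∃ p : Fin N → MvPolynomial (Fin (k+1)) ℂ, IsProperMap p 1 ∧
      (∀ j, ∃ (α : Fin (k+1) →₀ ℕ) (c : ℂ), p j = monomial α c) ∧ mapDegree p 1 = e := by
  classical
  refine exists_of_family (T := Option (Fin k × Fin e)) (by simpa using hN)
    (fun o => match o with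
      | none => Finsupp.single 0 e
      | some t => Finsupp.single 0 (t.2 : ℕ) + Finsupp.single t.1.succ 1)
    (fun _ => 1) (fun _ => one_pos) ?_ ?_ ?_ ⟨none, by simp⟩
  · rintro (_ | ⟨i, j⟩)
    · simp only [Ne, Finsupp.single_eq_zero]
      omega
    · intro h
      have := DFunLike.congr_fun h i.succ
      simp only [Finsupp.add_apply, Finsupp.single_eq_same, Finsupp.coe_zero, Pi.zero_apply] at this
      omega
  · intro x _ hsum
    rw [Fintype.sum_option, Fintype.sum_prod_type]
    simp only [prod_add, prod_single, one_mul]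
    rw [Fin.sum_univ_succ] at hsum
    have h1 : ∀ i : Fin k, ∑ j : Fin e, x 0 ^ (j : ℕ) * x i.succ ^ 1 =
        (∑ j ∈ range e, x 0 ^ j) * x i.succ := by
      intro i
      rw [pow_one, ← Finset.sum_mul, Fin.sum_univ_eq_sum_range (fun j => x 0 ^ j) e]
    simp only [h1, ← Finset.mul_sum]
    have h2 : ∑ i : Fin k, x i.succ = 1 - x 0 := by linarith
    rw [h2, geom_sum_mul_neg]
    ring
  · rintro (_ | ⟨i, j⟩)
    · simp
    · rw [map_add, Finsupp.degree_single, Finsupp.degree_single]
      have := j.2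
      simp only
      omega

/-- coefficients of the Lucas type polynomials -/
def ell : ℕ → ℕ → ℕ
  | 0, 0 => 2
  | 0, (_ + 1) => 0
  | 1, 0 => 1
  | 1, (_ + 1) => 0
  | (k + 2), 0 => ell (k + 1) 0
  | (k + 2), (j + 1) => ell (k + 1) (j + 1) + ell k j

lemma ell_pos : ∀ k j, 2 * j ≤ k → 0 < ell k j
  | 0, 0, _ => by simp [ell]
  | 0, (j + 1), h => by omega
  | 1, 0, _ => by simp [ell]
  | 1, (j + 1), h => by omega
  | (k + 2), 0, _ => by
    rw [ell]
    exact ell_pos (k + 1) 0 (by omega)
  | (k + 2), (j + 1), h => by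
    rw [ell]
    have := ell_pos k j (by omega)
    omega

lemma ell_zero : ∀ k j, k < 2 * j → ell k j = 0
  | 0, 0, h => by omega
  | 0, (j + 1), _ => by simp [ell]
  | 1, 0, h => by omega
  | 1, (j + 1), _ => by simp [ell]
  | (k + 2), 0, h => by omega
  | (k + 2), (j + 1), h => by
    rw [ell, ell_zero (k + 1) (j + 1) (by omega), ell_zero k j (by omega)]

/-- Lucas type polynomials -/
def luc (x y : ℝ) : ℕ → ℝ
  | 0 => 2
  | 1 => x
  | (k + 2) => x * luc x y (k + 1) + y * luc x y k

lemma luc_eq (x y : ℝ) (h : x + y = 1) : ∀ k, luc x y k = 1 + (-y) ^ k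
  | 0 => by simp [luc]; norm_num
  | 1 => by simp [luc]; linarith
  | (k + 2) => by
    rw [luc, luc_eq x y h (k + 1), luc_eq x y h k]
    have hx : x = 1 - y := by linarith
    rw [hx]
    ring

lemma luc_sum (x y : ℝ) : ∀ k M, k < 2 * M →
    luc x y k = ∑ j ∈ range M, (ell k j : ℝ) * (x ^ (k - 2 * j) * y ^ j)
  | 0, M, h => by
    rw [Finset.sum_eq_single 0]
    · simp [luc, ell]
    · intro j _ hj
      rw [ell_zero 0 j (by omega)]
      simp
    · intro h'
      exact absurd (Finset.mem_range.2 (by omega)) h'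
  | 1, M, h => by
    rw [Finset.sum_eq_single 0]
    · simp [luc, ell]
    · intro j _ hj
      rw [ell_zero 1 j (by omega)]
      simp
    · intro h'
      exact absurd (Finset.mem_range.2 (by omega)) h'
  | (k + 2), M, h => by
    obtain ⟨M', rfl⟩ : ∃ M', M = M' + 1 := ⟨M - 1, by omega⟩
    rw [luc, luc_sum x y (k + 1) (M' + 1) (by omega), luc_sum x y k M' (by omega)]
    rw [Finset.sum_range_succ', Finset.sum_range_succ' _ M', mul_add, Finset.mul_sum,
      Finset.mul_sum]
    have h1 : ∀ j ∈ range M', x * ((ell (k + 1) (j + 1) : ℝ) *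
        (x ^ (k + 1 - 2 * (j + 1)) * y ^ (j + 1))) =
        (ell (k + 1) (j + 1) : ℝ) * (x ^ (k + 2 - 2 * (j + 1)) * y ^ (j + 1)) := by
      intro j _
      by_cases hj : 2 * (j + 1) ≤ k + 1
      · have : k + 2 - 2 * (j + 1) = (k + 1 - 2 * (j + 1)) + 1 := by omega
        rw [this, pow_succ]
        ring
      · rw [ell_zero (k + 1) (j + 1) (by omega)]
        simp
    have h2 : ∀ j ∈ range M', y * ((ell k j : ℝ) * (x ^ (k - 2 * j) * y ^ j)) =
        (ell k j : ℝ) * (x ^ (k + 2 - 2 * (j + 1)) * y ^ (j + 1)) := by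
      intro j _
      have : k + 2 - 2 * (j + 1) = k - 2 * j := by omega
      rw [this, pow_succ]
      ring
    rw [Finset.sum_congr rfl h1, Finset.sum_congr rfl h2]
    have h3 : ∀ j ∈ range M', (ell (k + 2) (j + 1) : ℝ) *
        (x ^ (k + 2 - 2 * (j + 1)) * y ^ (j + 1)) =
        (ell (k + 1) (j + 1) : ℝ) * (x ^ (k + 2 - 2 * (j + 1)) * y ^ (j + 1)) +
        (ell k j : ℝ) * (x ^ (k + 2 - 2 * (j + 1)) * y ^ (j + 1)) := by
      intro j _
      rw [ell]
      push_cast
      ring
    rw [Finset.sum_congr rfl h3, Finset.sum_add_distrib]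
    have h4 : (ell (k + 2) 0 : ℝ) = ell (k + 1) 0 := by rw [ell]
    rw [h4]
    simp only [Nat.mul_zero, Nat.sub_zero, pow_zero, mul_one]
    ring

theorem odd_family {N m : ℕ} (hN : m + 2 ≤ N) :
    ∃ p : Fin N → MvPolynomial (Fin 2) ℂ, IsProperMap p 1 ∧
      (∀ j, ∃ (α : Fin 2 →₀ ℕ) (c : ℂ), p j = monomial α c) ∧ mapDegree p 1 = 2 * m + 1 := by
  classical
  refine exists_of_family (T := Option (Fin (m + 1)))
    (by simp only [Fintype.card_option, Fintype.card_fin]; omega)
    (fun o => match o with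
      | none => Finsupp.single 1 (2 * m + 1)
      | some j => Finsupp.single 0 (2 * m + 1 - 2 * (j : ℕ)) + Finsupp.single 1 (j : ℕ))
    (fun o => match o with
      | none => 1
      | some j => (ell (2 * m + 1) j : ℝ)) ?_ ?_ ?_ ?_ ⟨none, Finsupp.degree_single _ _⟩
  · rintro (_ | j)
    · exact one_pos
    · have := ell_pos (2 * m + 1) j (by omega)
      show (0 : ℝ) < (ell (2 * m + 1) j : ℝ)
      exact_mod_cast this
  · rintro (_ | j)
    · simp
    · intro h
      have := DFunLike.congr_fun h 0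
      simp at this
      omega
  · intro x _ hsum
    rw [Fintype.sum_option]
    simp only [prod_add, prod_single, one_mul]
    rw [Fin.sum_univ_two] at hsum
    rw [Fin.sum_univ_eq_sum_range (fun j => (ell (2 * m + 1) j : ℝ) *
      (x 0 ^ (2 * m + 1 - 2 * j) * x 1 ^ j)) (m + 1), ← luc_sum (x 0) (x 1) (2 * m + 1) (m + 1)
      (by omega), luc_eq _ _ hsum, Odd.neg_pow ⟨m, rfl⟩]
    ring
  · rintro (_ | j)
    · exact (Finsupp.degree_single _ _).le
    · rw [map_add, Finsupp.degree_single, Finsupp.degree_single]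
      have := j.2
      omega

theorem even_family {N m : ℕ} (hN : m + 3 ≤ N) :
    ∃ p : Fin N → MvPolynomial (Fin 2) ℂ, IsProperMap p 1 ∧
      (∀ j, ∃ (α : Fin 2 →₀ ℕ) (c : ℂ), p j = monomial α c) ∧ mapDegree p 1 = 2 * m + 2 := by
  classical
  refine exists_of_family (T := Option (Option (Fin (m + 1))))
    (by simp only [Fintype.card_option, Fintype.card_fin]; omega)
    (fun o => match o with
      | none => Finsupp.single 1 (2 * m + 2)
      | some none => Finsupp.single 0 1 + Finsupp.single 1 (2 * m + 1)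
      | some (some j) => Finsupp.single 0 (2 * m + 1 - 2 * (j : ℕ)) + Finsupp.single 1 (j : ℕ))
    (fun o => match o with
      | none => 1
      | some none => 1
      | some (some j) => (ell (2 * m + 1) j : ℝ)) ?_ ?_ ?_ ?_ ⟨none, Finsupp.degree_single _ _⟩
  · rintro (_ | _ | j)
    · exact one_pos
    · exact one_pos
    · have := ell_pos (2 * m + 1) j (by omega)
      show (0 : ℝ) < (ell (2 * m + 1) j : ℝ)
      exact_mod_cast this
  · rintro (_ | _ | j)
    · simp
    · intro h
      have := DFunLike.congr_fun h 0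
      simp at this
    · intro h
      have := DFunLike.congr_fun h 0
      simp at this
      omega
  · intro x _ hsum
    rw [Fintype.sum_option, Fintype.sum_option]
    simp only [prod_add, prod_single, one_mul]
    rw [Fin.sum_univ_two] at hsum
    rw [Fin.sum_univ_eq_sum_range (fun j => (ell (2 * m + 1) j : ℝ) *
      (x 0 ^ (2 * m + 1 - 2 * j) * x 1 ^ j)) (m + 1), ← luc_sum (x 0) (x 1) (2 * m + 1) (m + 1)
      (by omega), luc_eq _ _ hsum, Odd.neg_pow ⟨m, rfl⟩]
    have : x 0 = 1 - x 1 := by linarith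
    rw [this]
    ring
  · rintro (_ | _ | j)
    · exact (Finsupp.degree_single _ _).le
    · rw [map_add, Finsupp.degree_single, Finsupp.degree_single]
      omega
    · rw [map_add, Finsupp.degree_single, Finsupp.degree_single]
      have := j.2
      omega

end Pool.Agent.Helper28.Ball
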