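import Mathlib

/-!
Elimination: a family of polynomials without common divisor over a UFD has a nonzero constant in
the ideal it generates.
-/

namespace Pool.Agent.Helper28.Ball

open Polynomial

theorem elim_const {F : Type*} [CommRing F] [IsDomain F] [UniqueFactorizationMonoid F]
    {ι : Type*} [Fintype ι] (f : ι → F[X])
    (hf : ∀ r : F[X], (∀ i, r ∣ f i) → IsUnit r) :
    ∃ (a : ι → F[X]) (R : F), R ≠ 0 ∧ ∑ i, a i * f i = C R := by
  classical
  let K := FractionRing F
  let m : F[X] →+* K[X] := mapRingHom (algebraMap F K)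
  have hinj : Function.Injective (algebraMap F K) := IsFractionRing.injective F K
  let I : Ideal K[X] := Ideal.span (Set.range (fun i => m (f i)))
  obtain ⟨r, hr⟩ := (IsPrincipalIdealRing.principal I).principal
  have hrI : I = Ideal.span {r} := hr
  have hrdvd : ∀ i, r ∣ m (f i) := by
    intro i
    have : m (f i) ∈ Ideal.span {r} := by
      rw [← hrI]
      exact Ideal.subset_span ⟨i, rfl⟩
    exact Ideal.mem_span_singleton.1 this
  have hr0 : r ≠ 0 := by
    rintro rfl
    have h0 : ∀ i, f i = 0 := by
      intro i
      have h1 := hrdvd i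
      rw [zero_dvd_iff] at h1
      exact (Polynomial.map_eq_zero_iff hinj).1 h1
    have h2 := hf X (fun i => by rw [h0 i]; exact dvd_zero _)
    exact not_isUnit_X h2
  have := Classical.arbitrary (NormalizedGCDMonoid F)
  have hunit : IsUnit r := by
    refine isUnit_or_eq_zero_of_isUnit_integerNormalization_primPart (R := F) hr0 ?_
    apply hf
    intro i
    refine IsPrimitive.dvd_of_fraction_map_dvd_fraction_map (K := K) (isPrimitive_primPart _) ?_
    refine dvd_trans ?_ (hrdvd i)
    obtain ⟨c, c0, hc⟩ := IsLocalization.integerNormalization_spec (nonZeroDivisors F) r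
    have hc0 : c ≠ 0 := mem_nonZeroDivisors_iff_ne_zero.1 c0
    have h3 : (IsLocalization.integerNormalization (nonZeroDivisors F) r).primPart.map
        (algebraMap F K) ∣ (IsLocalization.integerNormalization (nonZeroDivisors F) r).map
        (algebraMap F K) := Polynomial.map_dvd _ (primPart_dvd _)
    refine h3.trans ?_
    rw [hc, Algebra.smul_def, Polynomial.algebraMap_apply]
    refine ⟨C ((algebraMap F K c)⁻¹), ?_⟩
    have hc1 : algebraMap F K c ≠ 0 := by
      rwa [Ne, map_eq_zero_iff _ hinj]
    have h4 : C (algebraMap F K c) * C ((algebraMap F K c)⁻¹) = (1 : K[X]) := by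
      rw [← C_mul, mul_inv_cancel₀ hc1, C_1]
    rw [mul_comm (C ((algebraMap F K) c)) r, mul_assoc, h4, mul_one]
  have htop : (1 : K[X]) ∈ I := by
    rw [hrI, Ideal.span_singleton_eq_top.2 hunit]
    exact Submodule.mem_top
  obtain ⟨b, hb⟩ := (Ideal.mem_span_range_iff_exists_fun).1 htop
  -- clear denominators
  choose c hc0 hc using fun i => IsLocalization.integerNormalization_spec (nonZeroDivisors F) (b i)
  refine ⟨fun i => C (∏ j ∈ Finset.univ.erase i, c j) *
    IsLocalization.integerNormalization (nonZeroDivisors F) (b i), ∏ j, c j, ?_, ?_⟩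
  · exact Finset.prod_ne_zero_iff.2 fun j _ => mem_nonZeroDivisors_iff_ne_zero.1 (hc0 j)
  · apply Polynomial.map_injective (algebraMap F K) hinj
    rw [Polynomial.map_sum, map_C]
    have h5 : ∀ i, ((C (∏ j ∈ Finset.univ.erase i, c j) *
        IsLocalization.integerNormalization (nonZeroDivisors F) (b i)) * f i).map (algebraMap F K)
        = C (algebraMap F K (∏ j, c j)) * (b i * m (f i)) := by
      intro i
      rw [Polynomial.map_mul, Polynomial.map_mul, map_C, hc i, Algebra.smul_def, Polynomial.algebraMap_apply,
        ← Finset.mul_prod_erase Finset.univ c (Finset.mem_univ i)]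
      rw [map_mul (algebraMap F K), C_mul]
      show _ = _ * (_ * (f i).map (algebraMap F K))
      ring
    rw [Finset.sum_congr rfl fun i _ => h5 i, ← Finset.mul_sum, hb, mul_one]

end Pool.Agent.Helper28.Ball
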