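import Mathlib

/-!
Lowest monomials and the growth estimate
`dim (M + ∑ X_i M) ≥ dim M + 1 + (n-1) d`.
-/

namespace Pool.Agent.Helper28.Ball

open MvPolynomial Finset

/-- Colexicographic key of an exponent (index `0` is the least significant). -/
noncomputable def key {m : ℕ} (α : Fin m →₀ ℕ) : Colex (Fin m → ℕ) :=
  toColex (fun i => α i)

lemma key_injective {m : ℕ} : Function.Injective (key (m := m)) := by
  intro α β h
  ext i
  exact congrFun (congrArg ofColex h) i

lemma key_lt_iff {m : ℕ} {α β : Fin m →₀ ℕ} :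
    key α < key β ↔ ∃ i : Fin m, (∀ j, i < j → α j = β j) ∧ α i < β i := Iff.rfl

lemma key_add_lt {m : ℕ} {α β γ : Fin m →₀ ℕ} (h : key α < key β) :
    key (α + γ) < key (β + γ) := by
  rw [key_lt_iff] at h ⊢
  obtain ⟨i, h1, h2⟩ := h
  refine ⟨i, fun j hj => by simp [h1 j hj], by simpa using h2⟩

lemma key_add_le {m : ℕ} {α β γ : Fin m →₀ ℕ} (h : key α ≤ key β) :
    key (α + γ) ≤ key (β + γ) := by
  rcases h.lt_or_eq with h | h
  · exact (key_add_lt h).le
  · rw [key_injective h]

/-- `γ` is the lowest exponent of `v`. -/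
def IsLow {m : ℕ} (v : MvPolynomial (Fin m) ℂ) (γ : Fin m →₀ ℕ) : Prop :=
  coeff γ v ≠ 0 ∧ ∀ δ, coeff δ v ≠ 0 → key γ ≤ key δ

lemma exists_isLow {m : ℕ} {v : MvPolynomial (Fin m) ℂ} (hv : v ≠ 0) : ∃ γ, IsLow v γ := by
  have hne : v.support.Nonempty := by
    rwa [Finset.nonempty_iff_ne_empty, Ne, MvPolynomial.support_eq_empty]
  obtain ⟨γ, hγ, hmin⟩ := Finset.exists_min_image v.support key hne
  refine ⟨γ, MvPolynomial.mem_support_iff.1 hγ, fun δ hδ => hmin δ (MvPolynomial.mem_support_iff.2 hδ)⟩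

lemma IsLow.X_mul {m : ℕ} {v : MvPolynomial (Fin m) ℂ} {γ : Fin m →₀ ℕ} (h : IsLow v γ)
    (i : Fin m) : IsLow (X i * v) (γ + Finsupp.single i 1) := by
  constructor
  · rw [mul_comm, coeff_mul_X]
    exact h.1
  · intro δ hδ
    rw [mul_comm, coeff_mul_X'] at hδ
    split_ifs at hδ with hi
    · have h1 := key_add_le (γ := Finsupp.single i 1) (h.2 _ hδ)
      rwa [tsub_add_cancel_of_le] at h1
      rw [Finsupp.single_le_iff]
      exact Nat.one_le_iff_ne_zero.2 (Finsupp.mem_support_iff.1 hi)
    · exact absurd rfl hδ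

lemma card_le_finrank {m : ℕ} (E : Submodule ℂ (MvPolynomial (Fin m) ℂ)) [FiniteDimensional ℂ E]
    (T : Finset (Fin m →₀ ℕ)) (hT : ∀ γ ∈ T, ∃ v ∈ E, IsLow v γ) :
    T.card ≤ Module.finrank ℂ E := by
  classical
  choose! v hvE hlow using hT
  have hli : LinearIndependent ℂ (fun γ : T => (⟨v γ, hvE γ γ.2⟩ : E)) := by
    rw [linearIndependent_iff']
    intro s c hsum
    by_contra hcon
    push Not at hcon
    obtain ⟨i0, hi0s, hi0⟩ := hcon
    obtain ⟨i1, hi1, hmin⟩ := Finset.exists_min_image (s.filter (fun i => c i ≠ 0))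
      (fun i => key i.1) ⟨i0, by simp [hi0s, hi0]⟩
    rw [Finset.mem_filter] at hi1
    have h1 : ∑ i ∈ s, c i • v i = 0 := by
      have := congrArg (Submodule.subtype E) hsum
      simpa [map_sum] using this
    have h2 := congrArg (coeff i1.1) h1
    rw [coeff_sum, coeff_zero, Finset.sum_eq_single i1] at h2
    · rw [coeff_smul, smul_eq_mul, mul_eq_zero] at h2
      rcases h2 with h2 | h2
      · exact hi1.2 h2
      · exact (hlow i1.1 i1.2).1 h2
    · intro j hj hne
      rw [coeff_smul, smul_eq_mul]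
      by_cases hcj : c j = 0
      · simp [hcj]
      · have h3 : key i1.1 ≤ key j.1 := hmin j (by simp [hj, hcj])
        by_cases hz : coeff i1.1 (v j.1) = 0
        · simp [hz]
        · have h4 := (hlow j.1 j.2).2 _ hz
          exact absurd (Subtype.ext (key_injective (le_antisymm h4 h3))) hne
    · intro h
      exact absurd hi1.1 h
  have := hli.fintype_card_le_finrank
  simpa using this

lemma exists_low_finset {m : ℕ} (M : Submodule ℂ (MvPolynomial (Fin m) ℂ))
    [FiniteDimensional ℂ M] :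
    ∃ T : Finset (Fin m →₀ ℕ), (∀ γ, γ ∈ T ↔ ∃ v ∈ M, IsLow v γ) ∧
      Module.finrank ℂ M ≤ T.card := by
  classical
  have hfin : {γ : Fin m →₀ ℕ | ∃ v ∈ M, IsLow v γ}.Finite := by
    by_contra hinf
    obtain ⟨T, hT, hcard⟩ := Set.Infinite.exists_subset_card_eq hinf (Module.finrank ℂ M + 1)
    have := card_le_finrank M T (fun γ hγ => hT hγ)
    omega
  refine ⟨hfin.toFinset, fun γ => by simp, ?_⟩
  set T := hfin.toFinset with hTdef
  let φ : M →ₗ[ℂ] (T → ℂ) :=
    { toFun := fun v γ => coeff γ.1 v.1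
      map_add' := by intro a b; ext γ; simp
      map_smul' := by intro a b; ext γ; simp }
  have hinj : Function.Injective φ := by
    rw [← LinearMap.ker_eq_bot, LinearMap.ker_eq_bot']
    intro v hv
    by_contra hne
    have hne' : (v : MvPolynomial (Fin m) ℂ) ≠ 0 := fun h => hne (Subtype.ext h)
    obtain ⟨γ, hγ⟩ := exists_isLow hne'
    have hmem : γ ∈ T := by
      rw [hTdef, Set.Finite.mem_toFinset]
      exact ⟨v, v.2, hγ⟩
    have := congrFun hv ⟨γ, hmem⟩
    exact hγ.1 this
  have := LinearMap.finrank_le_finrank_of_injective hinj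
  simpa using this

/-- The union of `T` with all its unit shifts. -/
noncomputable def shifts {m : ℕ} (T : Finset (Fin m →₀ ℕ)) : Finset (Fin m →₀ ℕ) :=
  by classical exact T ∪ Finset.univ.biUnion (fun i : Fin m => T.image (fun α => α + Finsupp.single i 1))

lemma mem_shifts {m : ℕ} {T : Finset (Fin m →₀ ℕ)} {β : Fin m →₀ ℕ} :
    β ∈ shifts T ↔ β ∈ T ∨ ∃ i : Fin m, ∃ α ∈ T, α + Finsupp.single i 1 = β := by
  classical
  unfold shifts
  simp

lemma ray {m : ℕ} (T : Finset (Fin m →₀ ℕ)) (α : Fin m →₀ ℕ) (i : Fin m) (hα : α ∈ T) :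
    ∃ K, 1 ≤ K ∧ α + Finsupp.single i K ∉ T ∧ α + Finsupp.single i K ∈ shifts T := by
  classical
  have hex : ∃ K, α + Finsupp.single i K ∉ T := by
    by_contra hcon
    push Not at hcon
    have hinj : Function.Injective (fun K : ℕ => α + Finsupp.single i K) := by
      intro a b hab
      have := DFunLike.congr_fun hab i
      simpa using this
    have h1 : Set.Infinite (Set.range (fun K : ℕ => α + Finsupp.single i K)) :=
      Set.infinite_range_of_injective hinj
    exact h1 (T.finite_toSet.subset (by rintro _ ⟨K, rfl⟩; exact hcon K))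
  refine ⟨Nat.find hex, ?_, Nat.find_spec hex, ?_⟩
  · by_contra hlt
    have h0 : Nat.find hex = 0 := by omega
    have := Nat.find_spec hex
    rw [h0] at this
    simp at this
    exact this hα
  · have h1 : 1 ≤ Nat.find hex := by
      by_contra hlt
      have h0 : Nat.find hex = 0 := by omega
      have := Nat.find_spec hex
      rw [h0] at this
      simp at this
      exact this hα
    rw [mem_shifts]
    right
    refine ⟨i, α + Finsupp.single i (Nat.find hex - 1), ?_, ?_⟩
    · by_contra hcon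
      exact Nat.find_min hex (m := Nat.find hex - 1) (by omega) hcon
    · rw [add_assoc, ← Finsupp.single_add]
      congr 2
      omega

theorem growth_card {k d : ℕ} (hd : 1 ≤ d) (T : Finset (Fin (k+1) →₀ ℕ))
    (hax : ∀ j < d, Finsupp.single 0 j ∈ T) :
    T.card + 1 + k * d ≤ (shifts T).card := by
  classical
  have h1 : ∀ x : Fin k × Fin d, ∃ K, 1 ≤ K ∧
      (Finsupp.single 0 (x.2 : ℕ) : Fin (k+1) →₀ ℕ) + Finsupp.single x.1.succ K ∉ T ∧
      (Finsupp.single 0 (x.2 : ℕ) : Fin (k+1) →₀ ℕ) + Finsupp.single x.1.succ K ∈ shifts T :=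
    fun x => ray T _ _ (hax _ x.2.2)
  choose K hK1 hK2 hK3 using h1
  obtain ⟨K0, hK01, hK02, hK03⟩ := ray T (Finsupp.single 0 0) 0 (hax 0 hd)
  let φ : Option (Fin k × Fin d) → (Fin (k+1) →₀ ℕ) := fun o =>
    match o with
    | none => Finsupp.single 0 0 + Finsupp.single 0 K0
    | some x => Finsupp.single 0 (x.2 : ℕ) + Finsupp.single x.1.succ (K x)
  have hφ1 : ∀ o, φ o ∉ T := by
    rintro (_ | x)
    · exact hK02
    · exact hK2 x
  have hφ2 : ∀ o, φ o ∈ shifts T := by
    rintro (_ | x)
    · exact hK03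
    · exact hK3 x
  have hcoord : ∀ (x : Fin k × Fin d) (i : Fin k), φ (some x) i.succ = if x.1 = i then K x else 0 := by
    intro x i
    simp only [φ, Finsupp.add_apply]
    rw [Finsupp.single_eq_of_ne (Fin.succ_ne_zero i), zero_add, Finsupp.single_apply]
    simp [Fin.succ_inj]
  have hcoord0 : ∀ (x : Fin k × Fin d), φ (some x) 0 = x.2 := by
    intro x
    simp only [φ, Finsupp.add_apply]
    rw [Finsupp.single_eq_same, Finsupp.single_eq_of_ne (Fin.succ_ne_zero _).symm, add_zero]
  have hcoordn : ∀ (i : Fin k), φ none i.succ = 0 := by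
    intro i
    simp only [φ, Finsupp.add_apply]
    rw [Finsupp.single_eq_of_ne (Fin.succ_ne_zero i), Finsupp.single_eq_of_ne (Fin.succ_ne_zero i),
      add_zero]
  have hinj : Function.Injective φ := by
    rintro (_ | x) (_ | y) hxy
    · rfl
    · exfalso
      have h2 := DFunLike.congr_fun hxy y.1.succ
      rw [hcoordn, hcoord, if_pos rfl] at h2
      have := hK1 y
      omega
    · exfalso
      have h2 := DFunLike.congr_fun hxy x.1.succ
      rw [hcoordn, hcoord, if_pos rfl] at h2
      have := hK1 x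
      omega
    · have h2 := DFunLike.congr_fun hxy x.1.succ
      rw [hcoord, hcoord, if_pos rfl] at h2
      have h3 : y.1 = x.1 := by
        by_contra hne
        rw [if_neg hne] at h2
        have := hK1 x
        omega
      have h4 := DFunLike.congr_fun hxy 0
      rw [hcoord0, hcoord0] at h4
      have h5 : x = y := Prod.ext h3.symm (Fin.ext h4)
      rw [h5]
  have hdisj : Disjoint T (Finset.univ.image φ) := by
    rw [Finset.disjoint_left]
    intro a ha hb
    obtain ⟨o, _, rfl⟩ := Finset.mem_image.1 hb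
    exact hφ1 o ha
  have hsub : T ∪ Finset.univ.image φ ⊆ shifts T := by
    intro a ha
    rcases Finset.mem_union.1 ha with ha | ha
    · exact mem_shifts.2 (Or.inl ha)
    · obtain ⟨o, _, rfl⟩ := Finset.mem_image.1 ha
      exact hφ2 o
  have h6 := Finset.card_le_card hsub
  rw [Finset.card_union_of_disjoint hdisj, Finset.card_image_of_injective _ hinj] at h6
  simp only [Finset.card_univ, Fintype.card_option, Fintype.card_prod, Fintype.card_fin] at h6
  omega

/-- Growth estimate in coordinates adapted to a line. -/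
theorem growth {k d : ℕ} (hd : 1 ≤ d) (M E : Submodule ℂ (MvPolynomial (Fin (k+1)) ℂ))
    [FiniteDimensional ℂ M] [FiniteDimensional ℂ E]
    (hME : M ≤ E) (hXE : ∀ v ∈ M, ∀ i, X i * v ∈ E)
    (hax : ∀ j < d, ∃ v ∈ M, ∀ i : ℕ, coeff (Finsupp.single 0 i) v = if i = j then 1 else 0) :
    Module.finrank ℂ M + 1 + k * d ≤ Module.finrank ℂ E := by
  obtain ⟨T, hT, hcard⟩ := exists_low_finset M
  have hT0 : ∀ j < d, (Finsupp.single 0 j : Fin (k+1) →₀ ℕ) ∈ T := by
    intro j hj
    obtain ⟨v, hv, hc⟩ := hax j hj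
    rw [hT]
    refine ⟨v, hv, by rw [hc j, if_pos rfl]; exact one_ne_zero, ?_⟩
    intro δ hδ
    by_cases hpure : ∀ i : Fin k, δ i.succ = 0
    · have hδ' : δ = Finsupp.single 0 (δ 0) := by
        ext i
        refine Fin.cases ?_ (fun i => ?_) i
        · simp
        · rw [hpure i, Finsupp.single_eq_of_ne (Fin.succ_ne_zero i)]
      rw [hδ', hc (δ 0)] at hδ
      have : δ 0 = j := by
        by_contra hne
        rw [if_neg hne] at hδ
        exact hδ rfl
      rw [hδ', this]
    · push Not at hpure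
      obtain ⟨i, hi⟩ := hpure
      -- highest index with nonzero coordinate
      obtain ⟨i1, hi1, hmax⟩ := Finset.exists_max_image
        (Finset.univ.filter (fun i : Fin k => δ i.succ ≠ 0)) id ⟨i, by simpa using hi⟩
      simp only [Finset.mem_filter, Finset.mem_univ, true_and, id] at hi1 hmax
      apply le_of_lt
      refine key_lt_iff.2 ⟨i1.succ, ?_, ?_⟩
      · intro l hl
        have hl0 : l ≠ 0 := by
          rintro rfl
          exact absurd hl (by simp)
        obtain ⟨l', rfl⟩ := Fin.exists_succ_eq.2 hl0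
        rw [Finsupp.single_eq_of_ne (Fin.succ_ne_zero l')]
        by_contra hne
        have := hmax l' (fun h => hne h.symm)
        exact absurd (Fin.succ_lt_succ_iff.1 hl) (not_lt.2 this)
      · rw [Finsupp.single_eq_of_ne (Fin.succ_ne_zero i1)]
        exact Nat.pos_of_ne_zero hi1
  have h1 := growth_card hd T hT0
  have h2 : (shifts T).card ≤ Module.finrank ℂ E := by
    apply card_le_finrank
    intro γ hγ
    rw [mem_shifts] at hγ
    rcases hγ with hγ | ⟨i, α, hα, rfl⟩
    · obtain ⟨v, hv, hl⟩ := (hT γ).1 hγ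
      exact ⟨v, hME hv, hl⟩
    · obtain ⟨v, hv, hl⟩ := (hT α).1 hα
      exact ⟨X i * v, hXE v hv i, hl.X_mul i⟩
  omega

end Pool.Agent.Helper28.Ball
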