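import Mathlib

/-!
One variable: nondegeneracy of the kernel of a proper map of the disc into the ball.
-/

namespace Pool.Agent.Helper28.Ball

open Polynomial Finset ComplexConjugate

/-- conjugate the coefficients -/
noncomputable def cp : ℂ[X] →+* ℂ[X] := Polynomial.mapRingHom (starRingEnd ℂ)

lemma eval_cp (p : ℂ[X]) (w : ℂ) : eval w (cp p) = conj (eval (conj w) p) := by
  unfold cp
  induction p using Polynomial.induction_on' with
  | add p q hp hq => simp only [map_add, eval_add, hp, hq]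
  | monomial n a => simp [eval_monomial]

lemma coeff_cp (p : ℂ[X]) (n : ℕ) : (cp p).coeff n = conj (p.coeff n) := by
  simp [cp]

/-- Truncated functional. -/
noncomputable def tr (d : ℕ) (l : ℕ → ℂ) : ℂ[X] →ₗ[ℂ] ℂ where
  toFun p := ∑ i ∈ range d, l i * p.coeff i
  map_add' p q := by simp [mul_add, Finset.sum_add_distrib]
  map_smul' c p := by
    simp only [coeff_smul, smul_eq_mul, RingHom.id_apply, Finset.mul_sum]
    exact Finset.sum_congr rfl fun i _ => by ring

lemma tr_apply (d : ℕ) (l : ℕ → ℂ) (p : ℂ[X]) : tr d l p = ∑ i ∈ range d, l i * p.coeff i := rfl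

lemma tr_X_pow_mul (d : ℕ) (l : ℕ → ℂ) (p : ℂ[X]) : tr d l (X ^ d * p) = 0 := by
  rw [tr_apply]
  refine Finset.sum_eq_zero fun i hi => ?_
  rw [coeff_X_pow_mul', if_neg (by have := Finset.mem_range.1 hi; omega), mul_zero]

lemma tr_eq (d : ℕ) (L : ℂ[X] →ₗ[ℂ] ℂ) (p : ℂ[X]) (hp : p.natDegree < d) :
    tr d (fun i => L (X ^ i)) p = L p := by
  rw [tr_apply]
  conv_rhs => rw [p.as_sum_range' d hp]
  rw [map_sum]
  refine Finset.sum_congr rfl fun i _ => ?_
  rw [← C_mul_X_pow_eq_monomial, ← smul_eq_C_mul, map_smul, smul_eq_mul, mul_comm]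

/-- The transform of `p` under the truncated functional. -/
noncomputable def tf (d : ℕ) (l : ℕ → ℂ) (p : ℂ[X]) : ℂ[X] :=
  ∑ i ∈ range d, C (tr d l (X ^ i * p)) * X ^ i

lemma eval_tf (d : ℕ) (l : ℕ → ℂ) (p : ℂ[X]) (y : ℂ) :
    eval y (tf d l p) = tr d l ((∑ i ∈ range d, (C y * X) ^ i) * p) := by
  unfold tf
  rw [eval_finsetSum, Finset.sum_mul, map_sum]
  refine Finset.sum_congr rfl fun i _ => ?_
  have h1 : (C y * X) ^ i * p = y ^ i • (X ^ i * p) := by
    rw [mul_pow, ← C_pow, mul_assoc, smul_eq_C_mul]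
  rw [h1, map_smul, eval_mul, eval_C, eval_pow, eval_X, smul_eq_mul, mul_comm]

lemma coeff_tf (d : ℕ) (l : ℕ → ℂ) (p : ℂ[X]) (i : ℕ) :
    (tf d l p).coeff i = if i < d then tr d l (X ^ i * p) else 0 := by
  unfold tf
  simp only [finsetSum_coeff, coeff_C_mul, coeff_X_pow]
  split_ifs with h
  · rw [Finset.sum_eq_single i]
    · simp
    · intro j _ hj
      simp [Ne.symm hj]
    · intro h'
      exact absurd (Finset.mem_range.2 h) h'
  · refine Finset.sum_eq_zero fun j hj => ?_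
    have : i ≠ j := by
      rintro rfl
      exact h (Finset.mem_range.1 hj)
    simp [this]

/-- `∑ |coeff|²` through the functional. -/
lemma sum_coeff_tf (d : ℕ) (l : ℕ → ℂ) (p : ℂ[X]) :
    ∑ i ∈ range d, (tf d l p).coeff i * conj ((tf d l p).coeff i) =
      ∑ m ∈ range d, conj (l m) * (tf d l p * cp p).coeff m := by
  have h1 : ∀ i ∈ range d, (tf d l p).coeff i * conj ((tf d l p).coeff i) =
      ∑ m ∈ range d, conj (l m) *
        (if i ≤ m then (tf d l p).coeff i * conj (p.coeff (m - i)) else 0) := by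
    intro i hi
    conv_lhs =>
      rw [coeff_tf, if_pos (Finset.mem_range.1 hi)]
    rw [tr_apply, map_sum, Finset.mul_sum]
    refine Finset.sum_congr rfl fun m _ => ?_
    rw [coeff_X_pow_mul', map_mul, coeff_tf, if_pos (Finset.mem_range.1 hi), tr_apply]
    split_ifs with h
    · simp only [coeff_X_pow_mul']
      ring
    · simp
  rw [Finset.sum_congr rfl h1, Finset.sum_comm]
  refine Finset.sum_congr rfl fun m hm => ?_
  rw [← Finset.mul_sum, coeff_mul, Finset.Nat.sum_antidiagonal_eq_sum_range_succ_mk]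
  congr 1
  rw [← Finset.sum_filter]
  refine Finset.sum_congr ?_ fun i _ => ?_
  · ext i
    simp only [Finset.mem_filter, Finset.mem_range]
    have := Finset.mem_range.1 hm
    omega
  · rw [coeff_cp]

/-- Parseval over roots of unity. -/
lemma parseval {M : ℕ} (hM : 0 < M) {ζ : ℂ} (hζ : IsPrimitiveRoot ζ M) (p : ℂ[X])
    (hp : p.natDegree < M) :
    ∑ k ∈ range M, eval (ζ ^ k) p * conj (eval (ζ ^ k) p) =
      M * ∑ i ∈ range M, p.coeff i * conj (p.coeff i) := by
  have hnorm : ‖ζ‖ = 1 := hζ.norm'_eq_one hM.ne'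
  have hinv : conj ζ = ζ⁻¹ := by
    rw [Complex.inv_def, Complex.normSq_eq_norm_sq, hnorm]
    simp
  have h0 : ζ ≠ 0 := by
    intro h
    rw [h, norm_zero] at hnorm
    exact zero_ne_one hnorm
  have h1 : ∀ k, eval (ζ ^ k) p * conj (eval (ζ ^ k) p) =
      ∑ i ∈ range M, ∑ j ∈ range M, p.coeff i * conj (p.coeff j) * (ζ ^ i * (ζ ^ j)⁻¹) ^ k := by
    intro k
    rw [Polynomial.eval_eq_sum_range' hp, map_sum, Finset.sum_mul_sum]
    refine Finset.sum_congr rfl fun i _ => Finset.sum_congr rfl fun j _ => ?_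
    rw [map_mul, map_pow, map_pow, hinv]
    have e1 : (ζ ^ k) ^ i = (ζ ^ i) ^ k := by rw [← pow_mul, ← pow_mul, mul_comm]
    have e2 : (ζ⁻¹ ^ k) ^ j = ((ζ ^ j)⁻¹) ^ k := by
      rw [← inv_pow, ← pow_mul, ← pow_mul, mul_comm]
    rw [e1, e2, mul_pow]
    ring
  simp only [h1]
  rw [Finset.sum_comm, Finset.mul_sum]
  refine Finset.sum_congr rfl fun i hi => ?_
  rw [Finset.sum_comm, Finset.sum_eq_single i]
  · rw [← Finset.mul_sum, mul_inv_cancel₀ (pow_ne_zero _ h0)]
    simp [mul_comm]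
  · intro j hj hji
    rw [← Finset.mul_sum]
    have hr : ζ ^ i * (ζ ^ j)⁻¹ ≠ 1 := by
      intro h
      have : ζ ^ i = ζ ^ j := by
        field_simp at h
        exact h
      exact hji (hζ.pow_inj (Finset.mem_range.1 hi) (Finset.mem_range.1 hj) this).symm
    have hr2 : (ζ ^ i * (ζ ^ j)⁻¹) ^ M = 1 := by
      rw [mul_pow, inv_pow, ← pow_mul, ← pow_mul, mul_comm i, mul_comm j, pow_mul, pow_mul,
        hζ.pow_eq_one]
      simp
    have h2 := geom_sum_mul (ζ ^ i * (ζ ^ j)⁻¹) M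
    rw [hr2, sub_self, mul_eq_zero] at h2
    rcases h2 with h2 | h2
    · rw [h2, mul_zero]
    · exact absurd (sub_eq_zero.1 h2) hr
  · intro h
    exact absurd hi h

/-- reversal in degree `d - 1` -/
noncomputable def rv (d : ℕ) (p : ℂ[X]) : ℂ[X] := ∑ i ∈ range d, C (p.coeff i) * X ^ (d - 1 - i)

lemma eval_rv (d : ℕ) (p : ℂ[X]) (hp : p.natDegree < d) {y t : ℂ} (hyt : y * t = 1) :
    eval t (rv d p) = t ^ (d - 1) * eval y p := by
  unfold rv
  rw [eval_finsetSum, Polynomial.eval_eq_sum_range' hp, Finset.mul_sum]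
  refine Finset.sum_congr rfl fun i hi => ?_
  have hi' := Finset.mem_range.1 hi
  have h1 : t ^ (d - 1) = t ^ (d - 1 - i) * t ^ i := by
    rw [← pow_add]
    congr 1
    omega
  have h2 : t ^ i * y ^ i = 1 := by
    rw [← mul_pow, mul_comm t y, hyt, one_pow]
  rw [eval_mul, eval_C, eval_pow, eval_X, h1]
  linear_combination -(p.coeff i * t ^ (d - 1 - i)) * h2

lemma natDegree_rv_le (d : ℕ) (p : ℂ[X]) : (rv d p).natDegree ≤ d - 1 := by
  unfold rv
  refine Polynomial.natDegree_sum_le_of_forall_le _ _ fun i _ => ?_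
  refine (natDegree_C_mul_X_pow_le _ _).trans (by omega)

lemma rv_eq_zero {d : ℕ} {p : ℂ[X]} (h : rv d p = 0) {i : ℕ} (hi : i < d) : p.coeff i = 0 := by
  have h1 := congrArg (fun q => q.coeff (d - 1 - i)) h
  simp only [rv, finsetSum_coeff, coeff_C_mul, coeff_X_pow, coeff_zero] at h1
  rw [Finset.sum_eq_single i] at h1
  · simpa using h1
  · intro j hj hji
    have := Finset.mem_range.1 hj
    rw [if_neg (by omega), mul_zero]
  · intro h'
    exact absurd (Finset.mem_range.2 hi) h'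

lemma natDegree_tf_lt {d : ℕ} (hd : 1 ≤ d) (l : ℕ → ℂ) (p : ℂ[X]) : (tf d l p).natDegree < d := by
  have h : (tf d l p).natDegree ≤ d - 1 := by
    rw [natDegree_le_iff_coeff_eq_zero]
    intro m hm
    rw [coeff_tf, if_neg (by omega)]
  omega

end Pool.Agent.Helper28.Ball
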