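import Mathlib
import Pool.Agent.Helper28.Ball.OneVar

namespace Pool.Agent.Helper28.Ball

open Polynomial Finset ComplexConjugate

lemma tr_C_mul (d : ℕ) (l : ℕ → ℂ) (c : ℂ) (p : ℂ[X]) : tr d l (C c * p) = c * tr d l p := by
  rw [← smul_eq_C_mul, map_smul, smul_eq_mul]

/-- From the kernel identity, the functional identity. -/
lemma claim1 {ι α β : Type*} [Fintype ι] [Fintype α] [Fintype β] {d : ℕ} (hd : 1 ≤ d)
    (Q : ℂ[X]) (P : ι → ℂ[X]) (g : α → ℂ[X]) (h : β → ℂ[X])
    (hQd : Q.natDegree ≤ d) (hPd : ∀ j, (P j).natDegree ≤ d)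
    (hid : ∀ t s : ℂ, eval t Q * conj (eval s Q) - ∑ j, eval t (P j) * conj (eval s (P j)) =
      (1 - t * conj s) * (∑ k, eval t (g k) * conj (eval s (g k)) -
        ∑ k, eval t (h k) * conj (eval s (h k))))
    (L : ℂ[X] →ₗ[ℂ] ℂ) (hLg : ∀ k, L (g k) = 0) (hLh : ∀ k, L (h k) = 0) :
    tf d (fun i => L (X ^ i)) Q * cp Q =
      ∑ j, tf d (fun i => L (X ^ i)) (P j) * cp (P j) := by
  classical
  set l : ℕ → ℂ := fun i => L (X ^ i) with hl
  let kap : ℂ → ℂ[X] := fun y =>
    ∑ k, C (conj (eval (conj y) (g k))) * g k - ∑ k, C (conj (eval (conj y) (h k))) * h k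
  have hpoly : ∀ y : ℂ, C (conj (eval (conj y) Q)) * Q -
      ∑ j, C (conj (eval (conj y) (P j))) * P j = (1 - C y * X) * kap y := by
    intro y
    apply Polynomial.funext
    intro t
    have := hid t (conj y)
    rw [Complex.conj_conj] at this
    simp only [kap, eval_sub, eval_mul, eval_C, eval_finsetSum, eval_one, eval_X]
    simp only [mul_comm] at this ⊢
    exact this
  have hLk : ∀ y, L (kap y) = 0 := by
    intro y
    simp only [kap, map_sub, map_sum, ← smul_eq_C_mul, map_smul, hLg, hLh, smul_zero,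
      Finset.sum_const_zero, sub_zero]
  have hdeg : ∀ y, y ≠ 0 → (kap y).natDegree < d := by
    intro y hy
    by_cases hk : kap y = 0
    · rw [hk, natDegree_zero]
      omega
    · have h1 : (1 - C y * X : ℂ[X]).natDegree = 1 := by
        have : (1 - C y * X : ℂ[X]) = C (-y) * X + C 1 := by
          rw [C_neg, C_1]
          ring
        rw [this]
        exact natDegree_linear (neg_ne_zero.2 hy)
      have h2 : (1 - C y * X : ℂ[X]) ≠ 0 := by
        intro h0
        rw [h0, natDegree_zero] at h1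
        exact zero_ne_one h1
      have h3 := natDegree_mul h2 hk
      rw [← hpoly y, h1] at h3
      have h4 : (C (conj (eval (conj y) Q)) * Q -
          ∑ j, C (conj (eval (conj y) (P j))) * P j).natDegree ≤ d := by
        refine (natDegree_sub_le _ _).trans (max_le ?_ ?_)
        · exact (natDegree_C_mul_le _ _).trans hQd
        · exact natDegree_sum_le_of_forall_le _ _ fun j _ =>
            (natDegree_C_mul_le _ _).trans (hPd j)
      omega
  have htr : ∀ y, y ≠ 0 → tr d l (kap y) = 0 := by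
    intro y hy
    rw [hl, tr_eq d L _ (hdeg y hy), hLk]
  apply Polynomial.eq_of_infinite_eval_eq
  have hinf : Set.Infinite {y : ℂ | y ≠ 0} := by
    have : {y : ℂ | y ≠ 0} = ({0} : Set ℂ)ᶜ := by
      ext y
      simp
    rw [this]
    exact Set.Finite.infinite_compl (Set.finite_singleton 0)
  refine hinf.mono fun y hy => ?_
  show eval y _ = eval y _
  simp only [eval_mul, eval_finsetSum, eval_tf, eval_cp]
  rw [← sub_eq_zero]
  have h5 : tr d l ((∑ i ∈ range d, (C y * X) ^ i) * Q) * conj (eval (conj y) Q) -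
      ∑ j, tr d l ((∑ i ∈ range d, (C y * X) ^ i) * P j) * conj (eval (conj y) (P j)) =
      tr d l ((∑ i ∈ range d, (C y * X) ^ i) * (C (conj (eval (conj y) Q)) * Q -
      ∑ j, C (conj (eval (conj y) (P j))) * P j)) := by
    rw [mul_sub, map_sub, Finset.mul_sum, map_sum]
    congr 1
    · rw [mul_left_comm, tr_C_mul, mul_comm]
    · refine Finset.sum_congr rfl fun j _ => ?_
      rw [mul_left_comm, tr_C_mul, mul_comm]
  rw [h5, hpoly, ← mul_assoc, geom_sum_mul_neg, sub_mul, one_mul, map_sub, htr y hy, zero_sub,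
    neg_eq_zero, mul_pow, ← C_pow, mul_assoc, tr_C_mul, tr_X_pow_mul, mul_zero]

lemma claim2 {ι : Type*} [Fintype ι] {d : ℕ} (l : ℕ → ℂ)
    (Q : ℂ[X]) (P : ι → ℂ[X])
    (h : tf d l Q * cp Q = ∑ j, tf d l (P j) * cp (P j)) :
    ∑ i ∈ range d, (tf d l Q).coeff i * conj ((tf d l Q).coeff i) =
      ∑ j, ∑ i ∈ range d, (tf d l (P j)).coeff i * conj ((tf d l (P j)).coeff i) := by
  simp only [sum_coeff_tf]
  rw [Finset.sum_comm]
  refine Finset.sum_congr rfl fun m _ => ?_
  rw [← Finset.mul_sum, h, finsetSum_coeff]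

/-- Pointwise identity. -/
lemma pointwise {ι : Type*} [Fintype ι] (V q : ℂ) (W p : ι → ℂ)
    (h1 : V * q = ∑ j, W j * p j) (h2 : q * conj q = ∑ j, p j * conj (p j)) :
    ∑ j, (W j * conj q - V * conj (p j)) * conj (W j * conj q - V * conj (p j)) =
      q * conj q * (∑ j, W j * conj (W j) - V * conj V) := by
  have h3 := congrArg conj h1
  simp only [map_mul, map_sum] at h3
  have e : ∀ j, (W j * conj q - V * conj (p j)) * conj (W j * conj q - V * conj (p j)) =
      q * conj q * (W j * conj (W j)) - conj q * conj V * (W j * p j)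
        - V * q * (conj (W j) * conj (p j)) + V * conj V * (p j * conj (p j)) := by
    intro j
    simp only [map_sub, map_mul, Complex.conj_conj]
    ring
  simp only [e, Finset.sum_add_distrib, Finset.sum_sub_distrib, ← Finset.mul_sum]
  rw [← h1, ← h2, ← h3]
  ring

theorem onevar {ι α β : Type*} [Fintype ι] [Fintype α] [Fintype β] {d : ℕ} (hd : 1 ≤ d)
    (Q : ℂ[X]) (P : ι → ℂ[X]) (g : α → ℂ[X]) (h : β → ℂ[X])
    (hQd : Q.natDegree ≤ d) (hPd : ∀ j, (P j).natDegree ≤ d)
    (hmax : Q.natDegree = d ∨ ∃ j, (P j).natDegree = d)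
    (A : ℂ[X]) (B : ι → ℂ[X]) (hbez : A * Q + ∑ j, B j * P j = 1)
    (hQ0 : Q.coeff 0 ≠ 0)
    (hid : ∀ t s : ℂ, eval t Q * conj (eval s Q) - ∑ j, eval t (P j) * conj (eval s (P j)) =
      (1 - t * conj s) * (∑ k, eval t (g k) * conj (eval s (g k)) -
        ∑ k, eval t (h k) * conj (eval s (h k)))) :
    ∀ i < d, (X : ℂ[X]) ^ i ∈ Submodule.span ℂ (Set.range g ∪ Set.range h) := by
  classical
  intro i0 hi0
  by_contra hni
  obtain ⟨L, hL1, hL2⟩ := Submodule.exists_le_ker_of_notMem hni
  have hLg : ∀ k, L (g k) = 0 := fun k =>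
    LinearMap.mem_ker.1 (hL2 (Submodule.subset_span (Or.inl ⟨k, rfl⟩)))
  have hLh : ∀ k, L (h k) = 0 := fun k =>
    LinearMap.mem_ker.1 (hL2 (Submodule.subset_span (Or.inr ⟨k, rfl⟩)))
  set l : ℕ → ℂ := fun i => L (X ^ i) with hl
  have hc1 := claim1 hd Q P g h hQd hPd hid L hLg hLh
  rw [← hl] at hc1
  have hc2 := claim2 l Q P hc1
  set V := tf d l Q with hV
  set W : ι → ℂ[X] := fun j => tf d l (P j) with hW
  have hVd : V.natDegree < d := natDegree_tf_lt hd l Q
  have hWd : ∀ j, (W j).natDegree < d := fun j => natDegree_tf_lt hd l (P j)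
  -- roots of unity
  set M := 2 * d with hM
  have hM0 : 0 < M := by omega
  have hζ := Complex.isPrimitiveRoot_exp M hM0.ne'
  set ζ := Complex.exp (2 * Real.pi * Complex.I / M) with hζdef
  have hnorm : ‖ζ‖ = 1 := hζ.norm'_eq_one hM0.ne'
  have hz0 : ζ ≠ 0 := by
    intro h
    rw [h, norm_zero] at hnorm
    exact zero_ne_one hnorm
  have hinv : ∀ k : ℕ, ζ ^ k * conj (ζ ^ k) = 1 := by
    intro k
    rw [Complex.mul_conj, Complex.normSq_eq_norm_sq, norm_pow, hnorm]
    simp
  have hpars : ∀ p : ℂ[X], p.natDegree < d →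
      ∑ k ∈ range M, eval (ζ ^ k) p * conj (eval (ζ ^ k) p) =
      M * ∑ i ∈ range d, p.coeff i * conj (p.coeff i) := by
    intro p hp
    rw [parseval hM0 hζ p (by omega)]
    congr 1
    symm
    apply Finset.sum_subset
    · intro x hx
      have := Finset.mem_range.1 hx
      exact Finset.mem_range.2 (by omega)
    · intro x _ hx
      have hx' : d ≤ x := by simpa using hx
      rw [coeff_eq_zero_of_natDegree_lt (by omega), zero_mul]
  have hcirc : ∀ k : ℕ, eval (ζ ^ k) (cp Q) * conj (eval (ζ ^ k) (cp Q)) =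
      ∑ j, eval (ζ ^ k) (cp (P j)) * conj (eval (ζ ^ k) (cp (P j))) := by
    intro k
    have := hid (conj (ζ ^ k)) (conj (ζ ^ k))
    rw [Complex.conj_conj, mul_comm (conj (ζ ^ k)), hinv, sub_self, zero_mul, sub_eq_zero] at this
    simp only [eval_cp, Complex.conj_conj]
    simp only [mul_comm] at this ⊢
    exact this
  have hqne : ∀ k : ℕ, eval (ζ ^ k) (cp Q) ≠ 0 := by
    intro k hk
    have h1 := hcirc k
    rw [hk, zero_mul] at h1
    have h2 : ∑ j, ‖eval (ζ ^ k) (cp (P j))‖ ^ 2 = 0 := by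
      have : ((∑ j, ‖eval (ζ ^ k) (cp (P j))‖ ^ 2 : ℝ) : ℂ) = 0 := by
        rw [h1]
        push_cast
        refine Finset.sum_congr rfl fun j _ => ?_
        rw [Complex.mul_conj, Complex.normSq_eq_norm_sq]
        push_cast
        rfl
      exact_mod_cast this
    have h3 : ∀ j, eval (ζ ^ k) (cp (P j)) = 0 := by
      intro j
      have := (Finset.sum_eq_zero_iff_of_nonneg (fun i _ => sq_nonneg _)).1 h2 j (Finset.mem_univ _)
      rwa [sq_eq_zero_iff, norm_eq_zero] at this
    have h4 := congrArg (fun p => eval (ζ ^ k) (cp p)) hbez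
    simp only [map_add, map_mul, map_sum, eval_add, eval_mul, eval_finsetSum, hk, h3, mul_zero,
      Finset.sum_const_zero, add_zero, map_one, eval_one] at h4
    exact zero_ne_one h4
  have hpt : ∀ k : ℕ, ∑ j, (eval (ζ ^ k) (W j) * conj (eval (ζ ^ k) (cp Q)) -
      eval (ζ ^ k) V * conj (eval (ζ ^ k) (cp (P j)))) *
      conj (eval (ζ ^ k) (W j) * conj (eval (ζ ^ k) (cp Q)) -
      eval (ζ ^ k) V * conj (eval (ζ ^ k) (cp (P j)))) =
      eval (ζ ^ k) (cp Q) * conj (eval (ζ ^ k) (cp Q)) *
      (∑ j, eval (ζ ^ k) (W j) * conj (eval (ζ ^ k) (W j)) -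
        eval (ζ ^ k) V * conj (eval (ζ ^ k) V)) := by
    intro k
    apply pointwise
    · have := congrArg (eval (ζ ^ k)) hc1
      simpa only [eval_mul, eval_finsetSum] using this
    · exact hcirc k
  have hnsq : ∀ z : ℂ, z * conj z = ((‖z‖ ^ 2 : ℝ) : ℂ) := by
    intro z
    rw [Complex.mul_conj, Complex.normSq_eq_norm_sq]
  set D : ℕ → ℝ := fun k => ∑ j, ‖eval (ζ ^ k) (W j)‖ ^ 2 - ‖eval (ζ ^ k) V‖ ^ 2 with hD
  have hptR : ∀ k : ℕ, ∑ j, ‖eval (ζ ^ k) (W j) * conj (eval (ζ ^ k) (cp Q)) -
      eval (ζ ^ k) V * conj (eval (ζ ^ k) (cp (P j)))‖ ^ 2 =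
      ‖eval (ζ ^ k) (cp Q)‖ ^ 2 * D k := by
    intro k
    have := hpt k
    simp only [hnsq] at this
    rw [hD]
    exact_mod_cast this
  have hD0 : ∀ k, 0 ≤ D k := by
    intro k
    have h1 : 0 ≤ ‖eval (ζ ^ k) (cp Q)‖ ^ 2 * D k := by
      rw [← hptR k]
      exact Finset.sum_nonneg fun _ _ => sq_nonneg _
    have h2 : 0 < ‖eval (ζ ^ k) (cp Q)‖ ^ 2 := by
      have := norm_pos_iff.2 (hqne k)
      positivity
    exact nonneg_of_mul_nonneg_right h1 h2
  have hDsum : ∑ k ∈ range M, D k = 0 := by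
    have h1 : ((∑ k ∈ range M, D k : ℝ) : ℂ) = 0 := by
      rw [hD]
      push_cast
      have h2 : ∀ z : ℂ, (‖z‖ : ℂ) ^ 2 = z * conj z := by
        intro z
        rw [hnsq]
        push_cast
        rfl
      simp only [h2]
      rw [Finset.sum_sub_distrib, Finset.sum_comm, hpars V hVd]
      simp only [hpars _ (hWd _)]
      rw [← Finset.mul_sum, ← hc2, sub_self]
    exact_mod_cast h1
  have hDz : ∀ k ∈ range M, D k = 0 :=
    (Finset.sum_eq_zero_iff_of_nonneg (fun k _ => hD0 k)).1 hDsum
  have hE : ∀ k ∈ range M, ∀ j, eval (ζ ^ k) (W j) * conj (eval (ζ ^ k) (cp Q)) =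
      eval (ζ ^ k) V * conj (eval (ζ ^ k) (cp (P j))) := by
    intro k hk j
    have h1 := hptR k
    rw [hDz k hk, mul_zero] at h1
    have h2 := (Finset.sum_eq_zero_iff_of_nonneg (fun i _ => sq_nonneg _)).1 h1 j
      (Finset.mem_univ _)
    rw [sq_eq_zero_iff, norm_eq_zero] at h2
    exact sub_eq_zero.1 h2
  -- polynomial identity
  have hrev : ∀ j, rv d (W j) * Q = rv d V * P j := by
    intro j
    rw [← sub_eq_zero]
    apply Polynomial.eq_zero_of_degree_lt_of_eval_index_eq_zero (s := range M)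
      (v := fun k => conj (ζ ^ k))
    · intro a ha b hb hab
      have hab' : ζ ^ a = ζ ^ b := by
        have := congrArg conj hab
        simpa using this
      exact hζ.pow_inj (by simpa using ha) (by simpa using hb) hab'
    · rw [Finset.card_range]
      refine lt_of_le_of_lt degree_le_natDegree ?_
      rw [Nat.cast_lt]
      refine lt_of_le_of_lt (natDegree_sub_le _ _) (max_lt ?_ ?_)
      · refine lt_of_le_of_lt natDegree_mul_le ?_
        have := natDegree_rv_le d (W j)
        omega
      · refine lt_of_le_of_lt natDegree_mul_le ?_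
        have := natDegree_rv_le d V
        have := hPd j
        omega
    · intro k hk
      have h1 := hE k hk j
      rw [eval_cp, eval_cp, Complex.conj_conj, Complex.conj_conj] at h1
      rw [eval_sub, eval_mul, eval_mul, eval_rv d _ (hWd j) (hinv k), eval_rv d _ hVd (hinv k),
        mul_assoc, mul_assoc, h1, sub_self]
  -- Q divides
  set r := rv d V * A + ∑ j, B j * rv d (W j) with hr
  have hVr : rv d V = Q * r := by
    calc rv d V = rv d V * (A * Q + ∑ j, B j * P j) := by rw [hbez, mul_one]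
      _ = rv d V * A * Q + ∑ j, B j * (rv d V * P j) := by
          rw [mul_add, Finset.mul_sum]
          congr 1
          · ring
          · exact Finset.sum_congr rfl fun j _ => by ring
      _ = rv d V * A * Q + ∑ j, B j * (rv d (W j) * Q) := by simp only [hrev]
      _ = Q * r := by
          rw [hr, mul_add, Finset.mul_sum]
          congr 1
          · ring
          · exact Finset.sum_congr rfl fun j _ => by ring
  have hQne : Q ≠ 0 := by
    rintro rfl
    simp at hQ0
  have hWr : ∀ j, rv d (W j) = r * P j := by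
    intro j
    have h1 := hrev j
    rw [hVr, mul_comm, mul_assoc] at h1
    exact mul_left_cancel₀ hQne h1
  have hr0 : r = 0 := by
    by_contra hrne
    have h1 : Q.natDegree ≤ d - 1 := by
      have h2 := natDegree_rv_le d V
      rw [hVr, natDegree_mul hQne hrne] at h2
      omega
    have h3 : ∀ j, (P j).natDegree ≤ d - 1 := by
      intro j
      by_cases hPj : P j = 0
      · rw [hPj, natDegree_zero]
        omega
      · have h2 := natDegree_rv_le d (W j)
        rw [hWr j, natDegree_mul hrne hPj] at h2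
        omega
    rcases hmax with h4 | ⟨j, h4⟩
    · omega
    · have := h3 j
      omega
  have hV0 : ∀ i < d, tr d l (X ^ i * Q) = 0 := by
    intro i hi
    have h1 : rv d V = 0 := by rw [hVr, hr0, mul_zero]
    have h2 := rv_eq_zero h1 hi
    rw [hV, coeff_tf, if_pos hi] at h2
    exact h2
  -- descending induction
  have hl0 : ∀ n, ∀ i < d, d - 1 - i = n → l i = 0 := by
    intro n
    induction n using Nat.strong_induction_on with
    | _ n ih =>
      intro i hi hn
      have h1 := hV0 i hi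
      rw [tr_apply, Finset.sum_eq_single i] at h1
      · rw [coeff_X_pow_mul', if_pos le_rfl, Nat.sub_self, mul_eq_zero] at h1
        exact h1.resolve_right hQ0
      · intro m hm hmi
        have hm' := Finset.mem_range.1 hm
        rcases lt_or_gt_of_ne hmi with hlt | hgt
        · rw [coeff_X_pow_mul', if_neg (by omega), mul_zero]
        · rw [ih (d - 1 - m) (by omega) m hm' rfl, zero_mul]
      · intro h'
        exact absurd (Finset.mem_range.2 hi) h'
  exact hL1 (hl0 _ i0 hi0 rfl)

end Pool.Agent.Helper28.Ball
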