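import Mathlib
import Pool.Agent.Helper28.Ball.Growth
import Pool.Agent.Helper28.Ball.Polar
import Pool.Agent.Helper28.Ball.OneVar2
import Pool.Agent.Helper28.Ball.Elim

/-!
Restriction to a complex line and the degree bound, in adapted coordinates.
-/

namespace Pool.Agent.Helper28.Ball

open MvPolynomial Finset ComplexConjugate

/-- Restriction to the line `t ↦ (ρ t, c)`. -/
noncomputable def lin {k : ℕ} (ρ : ℂ) (c : Fin k → ℂ) :
    MvPolynomial (Fin (k+1)) ℂ →+* Polynomial ℂ :=
  (Polynomial.compRingHom (Polynomial.C ρ * Polynomial.X)).comp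
    ((Polynomial.mapRingHom (eval c)).comp (finSuccEquiv ℂ k : _ →+* _))

lemma lin_apply {k : ℕ} (ρ : ℂ) (c : Fin k → ℂ) (r : MvPolynomial (Fin (k+1)) ℂ) :
    lin ρ c r = (Polynomial.map (eval c) (finSuccEquiv ℂ k r)).comp
      (Polynomial.C ρ * Polynomial.X) := rfl

lemma eval_lin {k : ℕ} (ρ : ℂ) (c : Fin k → ℂ) (r : MvPolynomial (Fin (k+1)) ℂ) (t : ℂ) :
    Polynomial.eval t (lin ρ c r) = eval (Fin.cons (ρ * t) c : Fin (k+1) → ℂ) r := by
  rw [eval_eq_eval_mv_eval', lin_apply, Polynomial.eval_comp]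
  simp

lemma lin_C {k : ℕ} (ρ : ℂ) (c : Fin k → ℂ) (a : ℂ) : lin ρ c (C a) = Polynomial.C a := by
  rw [lin_apply]
  simp [finSuccEquiv_apply]

lemma natDegree_lin_le {k : ℕ} (ρ : ℂ) (c : Fin k → ℂ) (r : MvPolynomial (Fin (k+1)) ℂ) :
    (lin ρ c r).natDegree ≤ r.totalDegree := by
  rw [lin_apply]
  refine Polynomial.natDegree_comp_le.trans ?_
  have h1 : (Polynomial.C ρ * Polynomial.X : Polynomial ℂ).natDegree ≤ 1 := by
    have := Polynomial.natDegree_C_mul_X_pow_le ρ 1
    simpa using this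
  have h2 : (Polynomial.map (eval c) (finSuccEquiv ℂ k r)).natDegree ≤ r.totalDegree := by
    refine Polynomial.natDegree_map_le.trans ?_
    rw [natDegree_finSuccEquiv]
    exact degreeOf_le_totalDegree r 0
  calc _ ≤ r.totalDegree * 1 := Nat.mul_le_mul h2 h1
    _ = _ := mul_one _

lemma coeff_comp_C_mul_X (ρ : ℂ) (f : Polynomial ℂ) (i : ℕ) :
    (f.comp (Polynomial.C ρ * Polynomial.X)).coeff i = f.coeff i * ρ ^ i := by
  rw [Polynomial.comp_C_mul_X_coeff]

lemma coeff_lin_top {k d : ℕ} (ρ : ℂ) (c : Fin k → ℂ) (r : MvPolynomial (Fin (k+1)) ℂ)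
    (hr : r.totalDegree ≤ d) :
    (lin ρ c r).coeff d = coeff (Finsupp.single 0 d) r * ρ ^ d := by
  rw [lin_apply, coeff_comp_C_mul_X, Polynomial.coeff_map]
  congr 1
  have h1 : (finSuccEquiv ℂ k r).coeff d = C (coeff (Finsupp.single 0 d) r) := by
    ext m
    rw [finSuccEquiv_coeff_coeff, coeff_C]
    split_ifs with hm
    · rw [← hm]
      congr 1
      ext i
      refine Fin.cases ?_ (fun i => ?_) i
      · simp
      · simp [Finsupp.single_eq_of_ne (Fin.succ_ne_zero i)]
    · by_contra hne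
      have h2 := le_totalDegree (mem_support_iff.2 hne)
      have h3 : (Finsupp.cons d m : Fin (k+1) →₀ ℕ).sum (fun _ e => e) = d + m.sum (fun _ e => e) := by
        rw [Finsupp.sum_cons]
      rw [h3] at h2
      have h4 : m.sum (fun _ e => e) = 0 := by omega
      apply hm
      ext i
      rw [Finsupp.sum, Finset.sum_eq_zero_iff] at h4
      by_cases hi : i ∈ m.support
      · exact (h4 i hi).symm
      · simpa using (Finsupp.notMem_support_iff.1 hi).symm
  rw [h1, eval_C]

/-- Choice of a small point where a nonzero polynomial does not vanish. -/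
lemma exists_small {k : ℕ} (R : MvPolynomial (Fin k) ℂ) (hR : R ≠ 0) :
    ∃ c : Fin k → ℂ, ∑ i, ‖c i‖ ^ 2 < 1 ∧ eval c R ≠ 0 := by
  by_contra hcon
  push Not at hcon
  apply hR
  set ε : ℝ := 1 / (k + 1) with hε
  have hε0 : 0 < ε := by positivity
  apply MvPolynomial.funext_set (fun _ : Fin k => Set.range (fun x : Set.Ioo (0 : ℝ) ε => ((x : ℝ) : ℂ)))
  · intro i
    have : Infinite (Set.Ioo (0 : ℝ) ε) := (Set.Ioo_infinite hε0).to_subtype
    exact Set.infinite_range_of_injective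
      (Complex.ofReal_injective.comp Subtype.val_injective)
  · intro x hx
    rw [map_zero]
    apply hcon
    have hx' : ∀ i, ‖x i‖ ^ 2 ≤ ε ^ 2 := by
      intro i
      obtain ⟨y, hy⟩ := hx i (Set.mem_univ i)
      rw [← hy]
      simp only [Complex.norm_real, Real.norm_eq_abs]
      rw [abs_of_pos y.2.1]
      exact pow_le_pow_left₀ y.2.1.le y.2.2.le 2
    calc ∑ i, ‖x i‖ ^ 2 ≤ ∑ _i : Fin k, ε ^ 2 := Finset.sum_le_sum fun i _ => hx' i
      _ = k * ε ^ 2 := by simp
      _ < 1 := by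
        rw [hε]
        have hk : (0 : ℝ) ≤ k := Nat.cast_nonneg k
        rw [div_pow, one_pow, mul_one_div, div_lt_one (by positivity)]
        nlinarith

end Pool.Agent.Helper28.Ball
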