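import Mathlib
import Pool.Agent.Helper28.Ball.Line

/-!
The degree bound in adapted coordinates.
-/

namespace Pool.Agent.Helper28.Ball

open MvPolynomial Finset ComplexConjugate

/-- Translation by `c` in the last `k` variables. -/
noncomputable def tau {k : ℕ} (c : Fin k → ℂ) :
    MvPolynomial (Fin (k+1)) ℂ →ₐ[ℂ] MvPolynomial (Fin (k+1)) ℂ :=
  aeval (Fin.cons (X 0) (fun i => X i.succ + C (c i)) : Fin (k+1) → MvPolynomial (Fin (k+1)) ℂ)

lemma eval_tau {k : ℕ} (c : Fin k → ℂ) (r : MvPolynomial (Fin (k+1)) ℂ) (x : Fin (k+1) → ℂ) :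
    eval x (tau c r) = eval (Fin.cons (x 0) (fun i => x i.succ + c i) : Fin (k+1) → ℂ) r := by
  unfold tau
  rw [eval_bind]
  congr 2
  funext i
  refine Fin.cases ?_ (fun i => ?_) i
  · simp
  · simp

lemma tau_injective {k : ℕ} (c : Fin k → ℂ) : Function.Injective (tau c) := by
  intro r s h
  apply MvPolynomial.funext
  intro x
  have h1 := congrArg (eval (Fin.cons (x 0) (fun i => x i.succ - c i) : Fin (k+1) → ℂ)) h
  rw [eval_tau, eval_tau] at h1
  have h2 : (Fin.cons ((Fin.cons (x 0) (fun i => x i.succ - c i) : Fin (k+1) → ℂ) 0)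
      (fun i => (Fin.cons (x 0) (fun i => x i.succ - c i) : Fin (k+1) → ℂ) i.succ + c i) :
      Fin (k+1) → ℂ) = x := by
    funext i
    refine Fin.cases ?_ (fun i => ?_) i
    · simp
    · simp
  rwa [h2] at h1

lemma coeff_axis {k : ℕ} (F : MvPolynomial (Fin (k+1)) ℂ) (j : ℕ)
    (h : ∀ t : ℂ, eval (Fin.cons t (fun _ => 0) : Fin (k+1) → ℂ) F = t ^ j) (i : ℕ) :
    coeff (Finsupp.single 0 i) F = if i = j then 1 else 0 := by
  have h1 : Polynomial.map (eval (fun _ => (0 : ℂ))) (finSuccEquiv ℂ k F) = Polynomial.X ^ j := by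
    apply Polynomial.funext
    intro t
    rw [← eval_eq_eval_mv_eval', h t]
    simp
  have h2 := congrArg (fun q => Polynomial.coeff q i) h1
  simp only [Polynomial.coeff_map, Polynomial.coeff_X_pow] at h2
  rw [← h2]
  have h3 : eval (fun _ => (0 : ℂ)) ((finSuccEquiv ℂ k F).coeff i) =
      coeff 0 ((finSuccEquiv ℂ k F).coeff i) := by
    have : (fun _ : Fin k => (0 : ℂ)) = 0 := rfl
    rw [this, ← constantCoeff_eq]
    rw [← MvPolynomial.eval_zero]
  rw [h3, finSuccEquiv_coeff_coeff]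
  congr 1
  ext l
  refine Fin.cases ?_ (fun l => ?_) l
  · simp
  · simp [Finsupp.single_eq_of_ne (Fin.succ_ne_zero l)]

/-- `lin` as a linear map. -/
noncomputable def linL {k : ℕ} (ρ : ℂ) (c : Fin k → ℂ) :
    MvPolynomial (Fin (k+1)) ℂ →ₗ[ℂ] Polynomial ℂ where
  toFun := lin ρ c
  map_add' := map_add _
  map_smul' := by
    intro r x
    rw [smul_eq_C_mul, map_mul, lin_C, ← Polynomial.smul_eq_C_mul]
    rfl

/-- Key: on a suitable line `M` restricts onto all polynomials of degree `< d`. -/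
theorem onto_line {k N a b d : ℕ} (hd : 1 ≤ d)
    (p : Fin N → MvPolynomial (Fin (k+1)) ℂ) (q : MvPolynomial (Fin (k+1)) ℂ)
    (g : Fin a → MvPolynomial (Fin (k+1)) ℂ) (h : Fin b → MvPolynomial (Fin (k+1)) ℂ)
    (hcop : ∀ r : MvPolynomial (Fin (k+1)) ℂ, r ∣ q → (∀ j, r ∣ p j) → IsUnit r)
    (hq : ∀ z : Fin (k+1) → ℂ, ∑ i, ‖z i‖ ^ 2 < 1 → eval z q ≠ 0)
    (hqd : q.totalDegree ≤ d) (hpd : ∀ j, (p j).totalDegree ≤ d)
    (htop : coeff (Finsupp.single 0 d) q ≠ 0 ∨ ∃ j, coeff (Finsupp.single 0 d) (p j) ≠ 0)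
    (hK : ∀ z w : Fin (k+1) → ℂ,
      eval z q * conj (eval w q) - ∑ j, eval z (p j) * conj (eval w (p j)) =
      (1 - ∑ i, z i * conj (w i)) * (∑ j, eval z (g j) * conj (eval w (g j)) -
        ∑ j, eval z (h j) * conj (eval w (h j)))) :
    ∃ c : Fin k → ℂ, ∀ j < d, ∃ v ∈ Submodule.span ℂ (Set.range (Sum.elim g h)),
      ∀ t : ℂ, eval (Fin.cons t c : Fin (k+1) → ℂ) v = t ^ j := by
  classical
  -- elimination
  let f : Option (Fin N) → Polynomial (MvPolynomial (Fin k) ℂ) := fun o =>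
    match o with
    | none => finSuccEquiv ℂ k q
    | some j => finSuccEquiv ℂ k (p j)
  obtain ⟨A, R, hR, hAR⟩ := elim_const f (by
    intro r hr
    have h1 : IsUnit ((finSuccEquiv ℂ k).symm r) := by
      apply hcop
      · obtain ⟨s, hs⟩ := hr none
        refine ⟨(finSuccEquiv ℂ k).symm s, ?_⟩
        rw [← map_mul, ← hs]
        simp [f]
      · intro j
        obtain ⟨s, hs⟩ := hr (some j)
        refine ⟨(finSuccEquiv ℂ k).symm s, ?_⟩
        rw [← map_mul, ← hs]
        simp [f]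
    have h2 := h1.map (finSuccEquiv ℂ k)
    simpa using h2)
  obtain ⟨c, hc1, hcR⟩ := exists_small R hR
  set s2 : ℝ := 1 - ∑ i, ‖c i‖ ^ 2 with hs2
  have hs20 : 0 < s2 := by rw [hs2]; linarith
  set ρ : ℂ := ((Real.sqrt s2 : ℝ) : ℂ) with hρ
  have hρ2 : ρ * conj ρ = (s2 : ℂ) := by
    rw [hρ, Complex.conj_ofReal, ← Complex.ofReal_mul, Real.mul_self_sqrt hs20.le]
  have hρ0 : ρ ≠ 0 := by
    rw [hρ, Complex.ofReal_ne_zero]
    exact (Real.sqrt_pos.2 hs20).ne'
  refine ⟨c, ?_⟩
  let Q := lin ρ c q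
  let P := fun j => lin ρ c (p j)
  let G := fun j => Polynomial.C ρ * lin ρ c (g j)
  let H := fun j => Polynomial.C ρ * lin ρ c (h j)
  -- Bezout
  let φ : Polynomial (MvPolynomial (Fin k) ℂ) →+* Polynomial ℂ :=
    (Polynomial.compRingHom (Polynomial.C ρ * Polynomial.X)).comp
      (Polynomial.mapRingHom (eval c))
  have hφ : ∀ r, φ (finSuccEquiv ℂ k r) = lin ρ c r := fun r => rfl
  have hbez0 : φ (A none) * Q + ∑ j, φ (A (some j)) * P j = Polynomial.C (eval c R) := by
    have h1 := congrArg φ hAR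
    rw [map_sum, Fintype.sum_option] at h1
    simp only [map_mul] at h1
    have h2 : φ (Polynomial.C R) = Polynomial.C (eval c R) := by
      simp [φ]
    rw [h2] at h1
    exact h1
  have hbez : (Polynomial.C (eval c R)⁻¹ * φ (A none)) * Q +
      ∑ j, (Polynomial.C (eval c R)⁻¹ * φ (A (some j))) * P j = 1 := by
    have h1 : Polynomial.C (eval c R)⁻¹ * Polynomial.C (eval c R) = (1 : Polynomial ℂ) := by
      rw [← Polynomial.C_mul, inv_mul_cancel₀ hcR, Polynomial.C_1]
    rw [← h1, ← hbez0, mul_add, Finset.mul_sum]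
    simp only [mul_assoc]
  have hone := onevar (d := d) hd Q P G H
    ((natDegree_lin_le ρ c q).trans hqd) (fun j => (natDegree_lin_le ρ c (p j)).trans (hpd j))
    (by
      rcases htop with ht | ⟨j, ht⟩
      · left
        apply le_antisymm ((natDegree_lin_le ρ c q).trans hqd)
        apply Polynomial.le_natDegree_of_ne_zero
        show (lin ρ c q).coeff d ≠ 0
        rw [coeff_lin_top ρ c q hqd]
        exact mul_ne_zero ht (pow_ne_zero _ hρ0)
      · right
        refine ⟨j, ?_⟩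
        apply le_antisymm ((natDegree_lin_le ρ c (p j)).trans (hpd j))
        apply Polynomial.le_natDegree_of_ne_zero
        show (lin ρ c (p j)).coeff d ≠ 0
        rw [coeff_lin_top ρ c (p j) (hpd j)]
        exact mul_ne_zero ht (pow_ne_zero _ hρ0))
    _ _ hbez
    (by
      rw [Polynomial.coeff_zero_eq_eval_zero]
      show Polynomial.eval 0 (lin ρ c q) ≠ 0
      rw [eval_lin]
      apply hq
      rw [Fin.sum_univ_succ]
      simpa using hc1)
    (by
      intro t s
      show Polynomial.eval t (lin ρ c q) * conj (Polynomial.eval s (lin ρ c q)) -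
        ∑ j, Polynomial.eval t (lin ρ c (p j)) * conj (Polynomial.eval s (lin ρ c (p j))) =
        (1 - t * conj s) * (∑ j, Polynomial.eval t (Polynomial.C ρ * lin ρ c (g j)) *
          conj (Polynomial.eval s (Polynomial.C ρ * lin ρ c (g j))) -
          ∑ j, Polynomial.eval t (Polynomial.C ρ * lin ρ c (h j)) *
          conj (Polynomial.eval s (Polynomial.C ρ * lin ρ c (h j))))
      simp only [Polynomial.eval_mul, Polynomial.eval_C, eval_lin]
      rw [hK]
      have h1 : (1 : ℂ) - ∑ i, (Fin.cons (ρ * t) c : Fin (k+1) → ℂ) i *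
          conj ((Fin.cons (ρ * s) c : Fin (k+1) → ℂ) i) = (ρ * conj ρ) * (1 - t * conj s) := by
        rw [Fin.sum_univ_succ]
        simp only [Fin.cons_zero, Fin.cons_succ]
        have h2 : ∑ i, c i * conj (c i) = ((∑ i, ‖c i‖ ^ 2 : ℝ) : ℂ) := by
          push_cast
          refine Finset.sum_congr rfl fun i _ => ?_
          rw [Complex.mul_conj, Complex.normSq_eq_norm_sq]
          push_cast
          rfl
        rw [h2, map_mul]
        have h3 : (1 : ℂ) - ((∑ i, ‖c i‖ ^ 2 : ℝ) : ℂ) = ρ * conj ρ := by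
          rw [hρ2, hs2]
          push_cast
          ring
        linear_combination h3
      rw [h1]
      have h4 : ∀ (x y : ℂ), ρ * x * conj (ρ * y) = (ρ * conj ρ) * (x * conj y) := by
        intro x y
        rw [map_mul]
        ring
      simp only [h4, ← Finset.mul_sum]
      ring)
  intro j hj
  have h1 := hone j hj
  -- lift to M
  have h2 : (Polynomial.X : Polynomial ℂ) ^ j ∈
      Submodule.map (linL ρ c) (Submodule.span ℂ (Set.range (Sum.elim g h))) := by
    refine Submodule.span_le.2 ?_ h1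
    rintro _ (⟨i, rfl⟩ | ⟨i, rfl⟩)
    · refine ⟨ρ • g i, Submodule.smul_mem _ _ (Submodule.subset_span ⟨Sum.inl i, rfl⟩), ?_⟩
      show lin ρ c (ρ • g i) = Polynomial.C ρ * lin ρ c (g i)
      rw [smul_eq_C_mul, map_mul, lin_C]
    · refine ⟨ρ • h i, Submodule.smul_mem _ _ (Submodule.subset_span ⟨Sum.inr i, rfl⟩), ?_⟩
      show lin ρ c (ρ • h i) = Polynomial.C ρ * lin ρ c (h i)
      rw [smul_eq_C_mul, map_mul, lin_C]
  obtain ⟨v, hv, hvX⟩ := h2
  have hvX' : lin ρ c v = Polynomial.X ^ j := hvX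
  refine ⟨ρ ^ j • v, Submodule.smul_mem _ _ hv, ?_⟩
  intro t
  rw [smul_eval]
  have h3 := congrArg (Polynomial.eval (ρ⁻¹ * t)) hvX'
  rw [eval_lin, ← mul_assoc, mul_inv_cancel₀ hρ0, one_mul, Polynomial.eval_pow,
    Polynomial.eval_X] at h3
  rw [h3, mul_pow, ← mul_assoc, ← mul_pow, mul_inv_cancel₀ hρ0, one_pow, one_mul]

end Pool.Agent.Helper28.Ball
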