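import Mathlib
import Pool.Agent.Helper28.Ball.Onto

/-!
The degree bound in adapted coordinates.
-/

namespace Pool.Agent.Helper28.Ball

open MvPolynomial Finset ComplexConjugate

variable {k N a b : ℕ}

/-- left list -/
noncomputable def listA (q : MvPolynomial (Fin (k+1)) ℂ) (g : Fin a → MvPolynomial (Fin (k+1)) ℂ)
    (h : Fin b → MvPolynomial (Fin (k+1)) ℂ) :
    Unit ⊕ ((Fin (k+1) × Fin a) ⊕ Fin b) → MvPolynomial (Fin (k+1)) ℂ :=
  Sum.elim (fun _ => q) (Sum.elim (fun x => X x.1 * g x.2) h)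

/-- right list -/
noncomputable def listB (p : Fin N → MvPolynomial (Fin (k+1)) ℂ)
    (g : Fin a → MvPolynomial (Fin (k+1)) ℂ) (h : Fin b → MvPolynomial (Fin (k+1)) ℂ) :
    Fin N ⊕ (Fin a ⊕ (Fin (k+1) × Fin b)) → MvPolynomial (Fin (k+1)) ℂ :=
  Sum.elim p (Sum.elim g (fun x => X x.1 * h x.2))

lemma lists_eq (p : Fin N → MvPolynomial (Fin (k+1)) ℂ) (q : MvPolynomial (Fin (k+1)) ℂ)
    (g : Fin a → MvPolynomial (Fin (k+1)) ℂ) (h : Fin b → MvPolynomial (Fin (k+1)) ℂ)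
    (hK : ∀ z : Fin (k+1) → ℂ, ‖eval z q‖ ^ 2 - ∑ j, ‖eval z (p j)‖ ^ 2 =
      (1 - ∑ i, ‖z i‖ ^ 2) * (∑ j, ‖eval z (g j)‖ ^ 2 - ∑ j, ‖eval z (h j)‖ ^ 2))
    (z : Fin (k+1) → ℂ) :
    ∑ i, ‖eval z (listA q g h i)‖ ^ 2 = ∑ i, ‖eval z (listB p g h i)‖ ^ 2 := by
  have h1 := hK z
  simp only [listA, listB, Fintype.sum_sum_type, Sum.elim_inl, Sum.elim_inr, Fintype.sum_prod_type,
    map_mul, eval_X, norm_mul, mul_pow, Finset.univ_unique, Finset.sum_singleton,
    ← Finset.mul_sum, ← Finset.sum_mul]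
  linarith

lemma polar_K (p : Fin N → MvPolynomial (Fin (k+1)) ℂ) (q : MvPolynomial (Fin (k+1)) ℂ)
    (g : Fin a → MvPolynomial (Fin (k+1)) ℂ) (h : Fin b → MvPolynomial (Fin (k+1)) ℂ)
    (hK : ∀ z : Fin (k+1) → ℂ, ‖eval z q‖ ^ 2 - ∑ j, ‖eval z (p j)‖ ^ 2 =
      (1 - ∑ i, ‖z i‖ ^ 2) * (∑ j, ‖eval z (g j)‖ ^ 2 - ∑ j, ‖eval z (h j)‖ ^ 2))
    (z w : Fin (k+1) → ℂ) :
      eval z q * conj (eval w q) - ∑ j, eval z (p j) * conj (eval w (p j)) =
      (1 - ∑ i, z i * conj (w i)) * (∑ j, eval z (g j) * conj (eval w (g j)) -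
        ∑ j, eval z (h j) * conj (eval w (h j))) := by
  have h1 := polar _ _ (lists_eq p q g h hK) z w
  simp only [listA, listB, Fintype.sum_sum_type, Sum.elim_inl, Sum.elim_inr, Fintype.sum_prod_type,
    map_mul, eval_X, Finset.univ_unique, Finset.sum_singleton] at h1
  have h2 : ∀ (x y u v : ℂ), x * u * (conj y * conj v) = (x * conj y) * (u * conj v) := by
    intro x y u v
    ring
  simp only [h2, ← Finset.mul_sum, ← Finset.sum_mul] at h1
  linear_combination h1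

theorem bound_aux {d : ℕ} (hd : 1 ≤ d)
    (p : Fin N → MvPolynomial (Fin (k+1)) ℂ) (q : MvPolynomial (Fin (k+1)) ℂ)
    (g : Fin a → MvPolynomial (Fin (k+1)) ℂ) (h : Fin b → MvPolynomial (Fin (k+1)) ℂ)
    (hcop : ∀ r : MvPolynomial (Fin (k+1)) ℂ, r ∣ q → (∀ j, r ∣ p j) → IsUnit r)
    (hq : ∀ z : Fin (k+1) → ℂ, ∑ i, ‖z i‖ ^ 2 < 1 → eval z q ≠ 0)
    (hqd : q.totalDegree ≤ d) (hpd : ∀ j, (p j).totalDegree ≤ d)
    (htop : coeff (Finsupp.single 0 d) q ≠ 0 ∨ ∃ j, coeff (Finsupp.single 0 d) (p j) ≠ 0)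
    (hli : LinearIndependent ℂ (Sum.elim g h))
    (hK : ∀ z : Fin (k+1) → ℂ, ‖eval z q‖ ^ 2 - ∑ j, ‖eval z (p j)‖ ^ 2 =
      (1 - ∑ i, ‖z i‖ ^ 2) * (∑ j, ‖eval z (g j)‖ ^ 2 - ∑ j, ‖eval z (h j)‖ ^ 2)) :
    k * d + 1 ≤ N + k * b := by
  classical
  set M := Submodule.span ℂ (Set.range (Sum.elim g h)) with hM
  set E := Submodule.span ℂ (Set.range (listB p g h)) with hE
  have hAB : Submodule.span ℂ (Set.range (listA q g h)) ≤ E :=
    span_le _ _ (lists_eq p q g h hK)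
  have hfM : Module.finrank ℂ M = a + b := by
    rw [hM, finrank_span_eq_card hli]
    simp
  have hfE : Module.finrank ℂ E ≤ N + a + (k + 1) * b := by
    refine (finrank_range_le_card (listB p g h)).trans ?_
    simp only [Fintype.card_sum, Fintype.card_fin, Fintype.card_prod]
    omega
  have hBmem : ∀ i, listB p g h i ∈ E := fun i => Submodule.subset_span ⟨i, rfl⟩
  have hAmem : ∀ i, listA q g h i ∈ E := fun i => hAB (Submodule.subset_span ⟨i, rfl⟩)
  have hME : M ≤ E := by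
    rw [hM, Submodule.span_le]
    rintro _ ⟨i | i, rfl⟩
    · exact hBmem (Sum.inr (Sum.inl i))
    · exact hAmem (Sum.inr (Sum.inr i))
  have hXE : ∀ v ∈ M, ∀ i, X i * v ∈ E := by
    intro v hv i
    have h1 : M ≤ E.comap (LinearMap.mulLeft ℂ (X i : MvPolynomial (Fin (k+1)) ℂ)) := by
      rw [hM, Submodule.span_le]
      rintro _ ⟨j | j, rfl⟩
      · exact hAmem (Sum.inr (Sum.inl (i, j)))
      · exact hBmem (Sum.inr (Sum.inr (i, j)))
    exact h1 hv
  have hEfd : FiniteDimensional ℂ E := FiniteDimensional.span_of_finite ℂ (Set.finite_range _)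
  have hMfd : FiniteDimensional ℂ M := FiniteDimensional.span_of_finite ℂ (Set.finite_range _)
  obtain ⟨c, hc⟩ := onto_line hd p q g h hcop hq hqd hpd htop (polar_K p q g h hK)
  -- translate
  have hgrow := growth (k := k) hd (M.map (tau c).toLinearMap) (E.map (tau c).toLinearMap)
    (Submodule.map_mono hME)
    (by
      rintro _ ⟨v, hv, rfl⟩ i
      refine Fin.cases ?_ (fun i => ?_) i
      · refine ⟨X 0 * v, hXE v hv 0, ?_⟩
        simp [tau]
      · have h1 : X i.succ * (tau c).toLinearMap v =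
            (tau c).toLinearMap (X i.succ * v) - c i • (tau c).toLinearMap v := by
          simp only [AlgHom.toLinearMap_apply, map_mul, smul_eq_C_mul]
          have : tau c (X i.succ) = X i.succ + C (c i) := by simp [tau]
          rw [this]
          ring
        rw [h1]
        exact Submodule.sub_mem _ ⟨_, hXE v hv i.succ, rfl⟩
          (Submodule.smul_mem _ _ ⟨v, hME hv, rfl⟩))
    (by
      intro j hj
      obtain ⟨v, hv, hvt⟩ := hc j hj
      refine ⟨tau c v, ⟨v, hv, rfl⟩, ?_⟩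
      apply coeff_axis
      intro t
      rw [eval_tau]
      simpa using hvt t)
  have h1 : Module.finrank ℂ (M.map (tau c).toLinearMap) = Module.finrank ℂ M :=
    (Submodule.equivMapOfInjective _ (show Function.Injective (tau c).toLinearMap from
      fun x y hxy => tau_injective c hxy) _).finrank_eq.symm
  have h2 : Module.finrank ℂ (E.map (tau c).toLinearMap) = Module.finrank ℂ E :=
    (Submodule.equivMapOfInjective _ (show Function.Injective (tau c).toLinearMap from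
      fun x y hxy => tau_injective c hxy) _).finrank_eq.symm
  rw [h1, h2, hfM] at hgrow
  have h3 : (k + 1) * b = k * b + b := by ring
  omega

end Pool.Agent.Helper28.Ball
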