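import Mathlib

/-!
Every difference of two Hermitian sums of squares can be written with linearly independent
polynomials, without more negative squares.
-/

namespace Pool.Agent.Helper28.Ball

open MvPolynomial Finset ComplexConjugate Matrix

lemma spectral_entry {r : ℕ} (A : Matrix (Fin r) (Fin r) ℂ) (hA : A.IsHermitian) (i l : Fin r) :
    A i l = ∑ k, (hA.eigenvectorUnitary : Matrix (Fin r) (Fin r) ℂ) i k *
      (hA.eigenvalues k : ℂ) * conj ((hA.eigenvectorUnitary : Matrix (Fin r) (Fin r) ℂ) l k) := by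
  conv_lhs => rw [hA.spectral_theorem]
  rw [Unitary.conjStarAlgAut_apply, Matrix.mul_apply]
  refine Finset.sum_congr rfl fun k _ => ?_
  rw [Matrix.mul_diagonal]
  rfl

lemma unitary_orth {r : ℕ} (A : Matrix (Fin r) (Fin r) ℂ) (hA : A.IsHermitian) (k m : Fin r) :
    ∑ l, conj ((hA.eigenvectorUnitary : Matrix (Fin r) (Fin r) ℂ) l k) *
      (hA.eigenvectorUnitary : Matrix (Fin r) (Fin r) ℂ) l m = if k = m then 1 else 0 := by
  have h1 := Unitary.coe_star_mul_self hA.eigenvectorUnitary
  have h2 := congrFun (congrFun h1 k) m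
  rw [Matrix.mul_apply, Matrix.one_apply] at h2
  exact h2

theorem exists_indep {σ : Type*} {a b : ℕ} (g : Fin a → MvPolynomial σ ℂ)
    (h : Fin b → MvPolynomial σ ℂ) :
    ∃ (a' b' : ℕ) (g' : Fin a' → MvPolynomial σ ℂ) (h' : Fin b' → MvPolynomial σ ℂ),
      b' ≤ b ∧ LinearIndependent ℂ (Sum.elim g' h') ∧
      ∀ z : σ → ℂ, ∑ j, ‖eval z (g' j)‖ ^ 2 - ∑ j, ‖eval z (h' j)‖ ^ 2 =
        ∑ j, ‖eval z (g j)‖ ^ 2 - ∑ j, ‖eval z (h j)‖ ^ 2 := by
  classical
  set V := Submodule.span ℂ (Set.range (Sum.elim g h)) with hV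
  have : FiniteDimensional ℂ V := FiniteDimensional.span_of_finite ℂ (Set.finite_range _)
  set r := Module.finrank ℂ V with hr
  let e := Module.finBasis ℂ V
  have hgV : ∀ j, g j ∈ V := fun j => Submodule.subset_span ⟨Sum.inl j, rfl⟩
  have hhV : ∀ j, h j ∈ V := fun j => Submodule.subset_span ⟨Sum.inr j, rfl⟩
  let G : Fin a → Fin r → ℂ := fun j i => e.repr ⟨g j, hgV j⟩ i
  let H : Fin b → Fin r → ℂ := fun j i => e.repr ⟨h j, hhV j⟩ i
  have hg : ∀ j, g j = ∑ i, G j i • (e i : MvPolynomial σ ℂ) := by
    intro j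
    have h1 := congrArg (fun v : V => (v : MvPolynomial σ ℂ)) (e.sum_repr ⟨g j, hgV j⟩)
    simp only [Submodule.coe_sum, Submodule.coe_smul] at h1
    exact h1.symm
  have hh : ∀ j, h j = ∑ i, H j i • (e i : MvPolynomial σ ℂ) := by
    intro j
    have h1 := congrArg (fun v : V => (v : MvPolynomial σ ℂ)) (e.sum_repr ⟨h j, hhV j⟩)
    simp only [Submodule.coe_sum, Submodule.coe_smul] at h1
    exact h1.symm
  let A : Matrix (Fin r) (Fin r) ℂ := fun i l =>
    ∑ j, G j i * conj (G j l) - ∑ j, H j i * conj (H j l)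
  have hA : A.IsHermitian := by
    ext i l
    rw [Matrix.conjTranspose_apply]
    simp only [A, star_sub, star_sum, star_mul', RCLike.star_def, Complex.conj_conj]
    congr 1
    · exact Finset.sum_congr rfl fun j _ => mul_comm _ _
    · exact Finset.sum_congr rfl fun j _ => mul_comm _ _
  set U : Matrix (Fin r) (Fin r) ℂ := (hA.eigenvectorUnitary : Matrix (Fin r) (Fin r) ℂ) with hU
  set lam : Fin r → ℝ := hA.eigenvalues with hlam
  -- generic quadratic identity
  have hform : ∀ y : Fin r → ℂ, ∑ j, ‖∑ i, G j i * y i‖ ^ 2 - ∑ j, ‖∑ i, H j i * y i‖ ^ 2 =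
      ∑ k, lam k * ‖∑ i, U i k * y i‖ ^ 2 := by
    intro y
    have hc : ∀ w : ℂ, ((‖w‖ ^ 2 : ℝ) : ℂ) = w * conj w := by
      intro w
      rw [Complex.mul_conj, Complex.normSq_eq_norm_sq]
    have h1 : ((∑ j, ‖∑ i, G j i * y i‖ ^ 2 - ∑ j, ‖∑ i, H j i * y i‖ ^ 2 : ℝ) : ℂ) =
        ∑ i, ∑ l, A i l * (y i * conj (y l)) := by
      rw [Complex.ofReal_sub, Complex.ofReal_sum, Complex.ofReal_sum]
      simp only [hc, map_sum, map_mul, Finset.sum_mul_sum]
      simp only [A, sub_mul, Finset.sum_sub_distrib, Finset.sum_mul]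
      congr 1
      · rw [Finset.sum_comm]
        refine Finset.sum_congr rfl fun i _ => ?_
        rw [Finset.sum_comm]
        refine Finset.sum_congr rfl fun l _ => Finset.sum_congr rfl fun j _ => ?_
        ring
      · rw [Finset.sum_comm]
        refine Finset.sum_congr rfl fun i _ => ?_
        rw [Finset.sum_comm]
        refine Finset.sum_congr rfl fun l _ => Finset.sum_congr rfl fun j _ => ?_
        ring
    have h2 : ((∑ k, lam k * ‖∑ i, U i k * y i‖ ^ 2 : ℝ) : ℂ) =
        ∑ i, ∑ l, A i l * (y i * conj (y l)) := by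
      rw [Complex.ofReal_sum]
      simp only [Complex.ofReal_mul, hc, map_sum, map_mul, Finset.sum_mul_sum]
      have h3 : ∀ i l, A i l * (y i * conj (y l)) =
          ∑ k, (lam k : ℂ) * (U i k * y i * (conj (U l k) * conj (y l))) := by
        intro i l
        rw [spectral_entry A hA i l, Finset.sum_mul]
        refine Finset.sum_congr rfl fun k _ => ?_
        ring
      simp only [h3, Finset.mul_sum]
      rw [Finset.sum_comm]
      refine Finset.sum_congr rfl fun i _ => ?_
      rw [Finset.sum_comm]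
    exact_mod_cast h1.trans h2.symm
  -- the diagonalising polynomials
  let E : Fin r → MvPolynomial σ ℂ := fun k => ∑ i, U i k • (e i : MvPolynomial σ ℂ)
  have heli : LinearIndependent ℂ (fun i => (e i : MvPolynomial σ ℂ)) := by
    have := e.linearIndependent.map' V.subtype V.ker_subtype
    exact this
  have hEli : LinearIndependent ℂ E := by
    rw [Fintype.linearIndependent_iff] at heli ⊢
    intro c hc
    have h1 : ∑ i, (∑ k, c k * U i k) • (e i : MvPolynomial σ ℂ) = 0 := by
      rw [← hc]
      simp only [E, Finset.smul_sum, Finset.sum_smul, smul_smul]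
      rw [Finset.sum_comm]
    have h2 := heli _ h1
    intro m
    have h3 : ∑ i, conj (U i m) * ∑ k, c k * U i k = 0 :=
      Finset.sum_eq_zero fun i _ => by rw [h2 i, mul_zero]
    simp only [Finset.mul_sum] at h3
    rw [Finset.sum_comm] at h3
    have h4 : ∀ k, ∑ i, conj (U i m) * (c k * U i k) = c k * (if m = k then 1 else 0) := by
      intro k
      rw [← unitary_orth A hA m k, Finset.mul_sum]
      exact Finset.sum_congr rfl fun i _ => by ring
    simp only [h4] at h3
    simpa using h3
  have hE : ∀ z : σ → ℂ, ∑ j, ‖eval z (g j)‖ ^ 2 - ∑ j, ‖eval z (h j)‖ ^ 2 =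
      ∑ k, lam k * ‖eval z (E k)‖ ^ 2 := by
    intro z
    have h1 := hform (fun i => eval z (e i : MvPolynomial σ ℂ))
    have h2 : ∀ j, eval z (g j) = ∑ i, G j i * eval z (e i : MvPolynomial σ ℂ) := by
      intro j
      conv_lhs => rw [hg j]
      simp [map_sum, smul_eval]
    have h3 : ∀ j, eval z (h j) = ∑ i, H j i * eval z (e i : MvPolynomial σ ℂ) := by
      intro j
      conv_lhs => rw [hh j]
      simp [map_sum, smul_eval]
    have h4 : ∀ k, eval z (E k) = ∑ i, U i k * eval z (e i : MvPolynomial σ ℂ) := by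
      intro k
      simp [E, map_sum, smul_eval]
    simp only [h2, h3, h4]
    exact h1
  let P := {k : Fin r // 0 < lam k}
  let M := {k : Fin r // lam k < 0}
  let eP : Fin (Fintype.card P) ≃ P := (Fintype.equivFin P).symm
  let eM : Fin (Fintype.card M) ≃ M := (Fintype.equivFin M).symm
  refine ⟨Fintype.card P, Fintype.card M,
    fun j => ((Real.sqrt (lam (eP j).1) : ℝ) : ℂ) • E (eP j).1,
    fun j => ((Real.sqrt (-lam (eM j).1) : ℝ) : ℂ) • E (eM j).1, ?_, ?_, ?_⟩
  · -- number of negative squares
    by_contra hlt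
    push Not at hlt
    let Φ : (M → ℂ) →ₗ[ℂ] (Fin b → ℂ) :=
      { toFun := fun c j => ∑ i, conj (H j i) * ∑ k : M, c k * U i k.1
        map_add' := by
          intro c c'
          funext j
          simp only [Pi.add_apply, add_mul, Finset.sum_add_distrib, mul_add]
        map_smul' := by
          intro t c
          funext j
          simp only [Pi.smul_apply, smul_eq_mul, RingHom.id_apply, Finset.mul_sum]
          refine Finset.sum_congr rfl fun i _ => Finset.sum_congr rfl fun k _ => ?_
          ring }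
    have hker : LinearMap.ker Φ ≠ ⊥ := by
      apply LinearMap.ker_ne_bot_of_finrank_lt
      simpa using hlt
    obtain ⟨c, hc, hc0⟩ := (Submodule.ne_bot_iff _).1 hker
    rw [LinearMap.mem_ker] at hc
    set y : Fin r → ℂ := fun i => conj (∑ k : M, c k * U i k.1) with hy
    have h1 := hform y
    have h2 : ∀ j, ∑ i, H j i * y i = 0 := by
      intro j
      have h3 := congrFun hc j
      have h4 := congrArg conj h3
      simp only [Φ, LinearMap.coe_mk, AddHom.coe_mk, Pi.zero_apply, map_zero] at h4
      rw [map_sum] at h4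
      rw [← h4]
      refine Finset.sum_congr rfl fun i _ => ?_
      rw [map_mul, Complex.conj_conj]
    have h5 : ∀ m : Fin r, ∑ i, U i m * y i =
        conj (∑ k : M, c k * (if m = k.1 then 1 else 0)) := by
      intro m
      have h6 : ∑ i, conj (U i m) * ∑ k : M, c k * U i k.1 =
          ∑ k : M, c k * (if m = k.1 then 1 else 0) := by
        simp only [Finset.mul_sum]
        rw [Finset.sum_comm]
        refine Finset.sum_congr rfl fun k _ => ?_
        rw [← unitary_orth A hA m k.1, Finset.mul_sum]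
        exact Finset.sum_congr rfl fun i _ => by ring
      rw [← h6, map_sum]
      refine Finset.sum_congr rfl fun i _ => ?_
      rw [map_mul, Complex.conj_conj]
    have h7 : ∑ k, lam k * ‖∑ i, U i k * y i‖ ^ 2 < 0 := by
      obtain ⟨k0, hk0⟩ : ∃ k0, c k0 ≠ 0 := by
        by_contra hcon
        push Not at hcon
        exact hc0 (funext hcon)
      have hval : ∀ k : M, ‖∑ i, U i k.1 * y i‖ = ‖c k‖ := by
        intro k
        rw [h5, RCLike.norm_conj, Finset.sum_eq_single k]
        · simp
        · intro k' _ hne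
          rw [if_neg (fun h => hne (Subtype.ext h.symm)), mul_zero]
        · intro h'
          exact absurd (Finset.mem_univ k) h'
      apply Finset.sum_neg' 
      · intro k _
        by_cases hk : lam k < 0
        · exact mul_nonpos_of_nonpos_of_nonneg hk.le (sq_nonneg _)
        · have : ∑ i, U i k * y i = 0 := by
            rw [h5, Finset.sum_eq_zero, map_zero]
            intro k' _
            rw [if_neg, mul_zero]
            rintro rfl
            exact hk k'.2
          rw [this]
          simp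
      · refine ⟨k0.1, Finset.mem_univ _, ?_⟩
        rw [hval k0]
        have h8 : 0 < ‖c k0‖ ^ 2 := by
          have := norm_pos_iff.2 hk0
          positivity
        exact mul_neg_of_neg_of_pos k0.2 h8
    rw [← h1] at h7
    simp only [h2, norm_zero] at h7
    have h9 : 0 ≤ ∑ j, ‖∑ i, G j i * y i‖ ^ 2 := Finset.sum_nonneg fun _ _ => sq_nonneg _
    have h10 : ∑ _j : Fin b, (0 : ℝ) ^ 2 = 0 := by simp
    rw [h10, sub_zero] at h7
    exact absurd h7 (not_lt.2 h9)
  · -- independence
    let idx : Fin (Fintype.card P) ⊕ Fin (Fintype.card M) → Fin r :=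
      Sum.elim (fun j => (eP j).1) (fun j => (eM j).1)
    have hidx : Function.Injective idx := by
      rintro (x | x) (y | y) hxy
      · have := eP.injective (Subtype.ext hxy)
        rw [this]
      · exfalso
        have h1 := (eP x).2
        have h2 := (eM y).2
        have h3 : (eP x).1 = (eM y).1 := hxy
        rw [h3] at h1
        exact absurd h1 (not_lt.2 h2.le)
      · exfalso
        have h1 := (eM x).2
        have h2 := (eP y).2
        have h3 : (eM x).1 = (eP y).1 := hxy
        rw [h3] at h1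
        exact absurd h1 (not_lt.2 h2.le)
      · have := eM.injective (Subtype.ext hxy)
        rw [this]
    have h1 := hEli.comp idx hidx
    let w : Fin (Fintype.card P) ⊕ Fin (Fintype.card M) → ℂˣ :=
      Sum.elim (fun j => Units.mk0 ((Real.sqrt (lam (eP j).1) : ℝ) : ℂ) (by
          rw [Ne, Complex.ofReal_eq_zero]
          exact (Real.sqrt_pos.2 (eP j).2).ne'))
        (fun j => Units.mk0 ((Real.sqrt (-lam (eM j).1) : ℝ) : ℂ) (by
          rw [Ne, Complex.ofReal_eq_zero]
          exact (Real.sqrt_pos.2 (neg_pos.2 (eM j).2)).ne'))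
    have h2 := h1.units_smul w
    convert h2 using 1
    funext x
    rcases x with x | x <;> rfl
  · intro z
    rw [hE z]
    have h1 : ∀ j : Fin (Fintype.card P),
        ‖eval z (((Real.sqrt (lam (eP j).1) : ℝ) : ℂ) • E (eP j).1)‖ ^ 2 =
        lam (eP j).1 * ‖eval z (E (eP j).1)‖ ^ 2 := by
      intro j
      rw [smul_eval, norm_mul, mul_pow, Complex.norm_real, Real.norm_eq_abs, sq_abs,
        Real.sq_sqrt (eP j).2.le]
    have h2 : ∀ j : Fin (Fintype.card M),
        ‖eval z (((Real.sqrt (-lam (eM j).1) : ℝ) : ℂ) • E (eM j).1)‖ ^ 2 =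
        -lam (eM j).1 * ‖eval z (E (eM j).1)‖ ^ 2 := by
      intro j
      rw [smul_eval, norm_mul, mul_pow, Complex.norm_real, Real.norm_eq_abs, sq_abs,
        Real.sq_sqrt (neg_pos.2 (eM j).2).le]
    simp only [h1, h2]
    rw [eP.sum_comp (fun k : P => lam k.1 * ‖eval z (E k.1)‖ ^ 2),
      eM.sum_comp (fun k : M => -lam k.1 * ‖eval z (E k.1)‖ ^ 2)]
    have h3 : ∑ k : P, lam k.1 * ‖eval z (E k.1)‖ ^ 2 =
        ∑ k ∈ Finset.univ.filter (fun k => 0 < lam k), lam k * ‖eval z (E k)‖ ^ 2 := by
      rw [Finset.sum_subtype (p := fun k => 0 < lam k)]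
      intro x
      simp
    have h4 : ∑ k : M, -lam k.1 * ‖eval z (E k.1)‖ ^ 2 =
        ∑ k ∈ Finset.univ.filter (fun k => lam k < 0), -lam k * ‖eval z (E k)‖ ^ 2 := by
      rw [Finset.sum_subtype (p := fun k => lam k < 0)]
      intro x
      simp
    rw [h3, h4, Finset.sum_filter, Finset.sum_filter, ← Finset.sum_sub_distrib]
    refine Finset.sum_congr rfl fun k _ => ?_
    rcases lt_trichotomy (lam k) 0 with hk | hk | hk
    · rw [if_neg (not_lt.2 hk.le), if_pos hk]
      ring
    · rw [hk]
      simp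
    · rw [if_pos hk, if_neg (not_lt.2 hk.le)]
      ring

end Pool.Agent.Helper28.Ball
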