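import Mathlib
import Pool.Agent.Helper28.Ball.Bound

/-!
Unitary change of coordinates and the general degree bound.
-/

namespace Pool.Agent.Helper28.Ball

open MvPolynomial Finset ComplexConjugate

variable {k N a b : ℕ}

abbrev Sp (k : ℕ) := EuclideanSpace ℂ (Fin (k+1))

/-- The point with coordinates `x` in the basis `u`. -/
noncomputable def pt (u : OrthonormalBasis (Fin (k+1)) ℂ (Sp k)) (x : Fin (k+1) → ℂ) :
    Fin (k+1) → ℂ := fun i => ∑ j, x j * (u j) i

lemma pt_eq (u : OrthonormalBasis (Fin (k+1)) ℂ (Sp k)) (x : Fin (k+1) → ℂ) :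
    pt u x = fun i => (u.repr.symm (WithLp.toLp 2 x)) i := by
  funext i
  have h := u.sum_repr_symm (WithLp.toLp 2 x)
  rw [← h]
  simp [pt]

lemma norm_pt (u : OrthonormalBasis (Fin (k+1)) ℂ (Sp k)) (x : Fin (k+1) → ℂ) :
    ∑ i, ‖pt u x i‖ ^ 2 = ∑ i, ‖x i‖ ^ 2 := by
  rw [pt_eq]
  have h1 := EuclideanSpace.norm_sq_eq (u.repr.symm (WithLp.toLp 2 x))
  rw [← h1, LinearIsometryEquiv.norm_map, EuclideanSpace.norm_sq_eq]

/-- inverse coordinates -/
noncomputable def ipt (u : OrthonormalBasis (Fin (k+1)) ℂ (Sp k)) (w : Fin (k+1) → ℂ) :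
    Fin (k+1) → ℂ := fun j => ∑ i, w i * conj ((u j) i)

lemma ipt_eq (u : OrthonormalBasis (Fin (k+1)) ℂ (Sp k)) (w : Fin (k+1) → ℂ) :
    ipt u w = fun i => (u.repr (WithLp.toLp 2 w)) i := by
  funext j
  rw [u.repr_apply_apply]
  simp [ipt, PiLp.inner_apply]

lemma pt_ipt (u : OrthonormalBasis (Fin (k+1)) ℂ (Sp k)) (w : Fin (k+1) → ℂ) :
    pt u (ipt u w) = w := by
  rw [pt_eq, ipt_eq]
  funext i
  have : (WithLp.toLp 2 (fun i => (u.repr (WithLp.toLp 2 w)) i) : Sp k) =
      u.repr (WithLp.toLp 2 w) := rfl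
  rw [this, LinearIsometryEquiv.symm_apply_apply]

lemma ipt_pt (u : OrthonormalBasis (Fin (k+1)) ℂ (Sp k)) (w : Fin (k+1) → ℂ) :
    ipt u (pt u w) = w := by
  rw [pt_eq, ipt_eq]
  funext i
  have : (WithLp.toLp 2 (fun i => (u.repr.symm (WithLp.toLp 2 w)) i) : Sp k) =
      u.repr.symm (WithLp.toLp 2 w) := rfl
  rw [this, LinearIsometryEquiv.apply_symm_apply]

/-- rotation of a polynomial -/
noncomputable def rot (u : OrthonormalBasis (Fin (k+1)) ℂ (Sp k)) :
    MvPolynomial (Fin (k+1)) ℂ →ₐ[ℂ] MvPolynomial (Fin (k+1)) ℂ :=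
  aeval (fun i => ∑ j, C ((u j) i) * X j)

noncomputable def irot (u : OrthonormalBasis (Fin (k+1)) ℂ (Sp k)) :
    MvPolynomial (Fin (k+1)) ℂ →ₐ[ℂ] MvPolynomial (Fin (k+1)) ℂ :=
  aeval (fun j => ∑ i, C (conj ((u j) i)) * X i)

lemma eval_rot (u : OrthonormalBasis (Fin (k+1)) ℂ (Sp k)) (r : MvPolynomial (Fin (k+1)) ℂ)
    (x : Fin (k+1) → ℂ) : eval x (rot u r) = eval (pt u x) r := by
  unfold rot
  rw [eval_bind]
  congr 2
  funext i
  simp [pt, map_sum, mul_comm]

lemma eval_irot (u : OrthonormalBasis (Fin (k+1)) ℂ (Sp k)) (r : MvPolynomial (Fin (k+1)) ℂ)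
    (x : Fin (k+1) → ℂ) : eval x (irot u r) = eval (ipt u x) r := by
  unfold irot
  rw [eval_bind]
  congr 2
  funext i
  simp [ipt, map_sum, mul_comm]

lemma irot_rot (u : OrthonormalBasis (Fin (k+1)) ℂ (Sp k)) (r : MvPolynomial (Fin (k+1)) ℂ) :
    irot u (rot u r) = r := by
  apply MvPolynomial.funext
  intro x
  rw [eval_irot, eval_rot, pt_ipt]

lemma rot_irot (u : OrthonormalBasis (Fin (k+1)) ℂ (Sp k)) (r : MvPolynomial (Fin (k+1)) ℂ) :
    rot u (irot u r) = r := by
  apply MvPolynomial.funext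
  intro x
  rw [eval_rot, eval_irot, ipt_pt]

lemma rot_homog (u : OrthonormalBasis (Fin (k+1)) ℂ (Sp k)) {r : MvPolynomial (Fin (k+1)) ℂ}
    {m : ℕ} (hr : r.IsHomogeneous m) : (rot u r).IsHomogeneous m := by
  have := hr.aeval (fun i => ∑ j, C ((u j) i) * X j) (n := 1) (by
    intro i
    exact MvPolynomial.IsHomogeneous.sum _ _ _ fun j _ => isHomogeneous_C_mul_X _ _)
  rwa [one_mul] at this

lemma rot_sum (u : OrthonormalBasis (Fin (k+1)) ℂ (Sp k)) (r : MvPolynomial (Fin (k+1)) ℂ)
    {d : ℕ} (hr : r.totalDegree ≤ d) :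
    rot u r = ∑ i ∈ range (d + 1), rot u (homogeneousComponent i r) := by
  rw [← map_sum]
  congr 1
  conv_lhs => rw [← sum_homogeneousComponent r]
  apply Finset.sum_subset
  · intro i hi
    have := Finset.mem_range.1 hi
    exact Finset.mem_range.2 (by omega)
  · intro i _ hi
    have : r.totalDegree < i := by
      have h := Finset.mem_range.not.1 hi
      omega
    exact homogeneousComponent_eq_zero _ _ this

lemma totalDegree_rot_le (u : OrthonormalBasis (Fin (k+1)) ℂ (Sp k))
    (r : MvPolynomial (Fin (k+1)) ℂ) {d : ℕ} (hr : r.totalDegree ≤ d) :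
    (rot u r).totalDegree ≤ d := by
  rw [rot_sum u r hr]
  refine (totalDegree_finset_sum _ _).trans ?_
  refine Finset.sup_le fun i hi => ?_
  have h1 := (rot_homog u (homogeneousComponent_isHomogeneous i r)).totalDegree_le
  have := Finset.mem_range.1 hi
  omega

lemma eval_single_homog {F : MvPolynomial (Fin (k+1)) ℂ} {d : ℕ} (hF : F.IsHomogeneous d) :
    eval (Pi.single 0 1 : Fin (k+1) → ℂ) F = coeff (Finsupp.single 0 d) F := by
  classical
  rw [eval_eq']
  by_cases hmem : Finsupp.single 0 d ∈ F.support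
  · rw [Finset.sum_eq_single (Finsupp.single 0 d)]
    · have : ∏ i : Fin (k+1), (Pi.single 0 1 : Fin (k+1) → ℂ) i ^ (Finsupp.single (0 : Fin (k+1)) d) i
          = 1 := by
        rw [Fin.prod_univ_succ]
        simp [Finsupp.single_eq_of_ne (Fin.succ_ne_zero _)]
      rw [this, mul_one]
    · intro α hα hne
      have hdeg : α.degree = d := by
        by_contra h
        exact (mem_support_iff.1 hα) (hF.coeff_eq_zero h)
      have : ∃ i : Fin k, α i.succ ≠ 0 := by
        by_contra hcon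
        push Not at hcon
        apply hne
        ext i
        refine Fin.cases ?_ (fun i => ?_) i
        · rw [Finsupp.degree_eq_sum, Fin.sum_univ_succ] at hdeg
          simp only [hcon, Finset.sum_const_zero, add_zero] at hdeg
          simpa using hdeg
        · rw [hcon i, Finsupp.single_eq_of_ne (Fin.succ_ne_zero i)]
      obtain ⟨i, hi⟩ := this
      rw [Finset.prod_eq_zero (Finset.mem_univ i.succ), mul_zero]
      rw [Pi.single_eq_of_ne (Fin.succ_ne_zero i)]
      exact zero_pow hi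
    · intro h
      exact absurd hmem h
  · rw [notMem_support_iff.1 hmem]
    refine Finset.sum_eq_zero fun α hα => ?_
    have hdeg : α.degree = d := by
      by_contra h
      exact (mem_support_iff.1 hα) (hF.coeff_eq_zero h)
    have : ∃ i : Fin k, α i.succ ≠ 0 := by
      by_contra hcon
      push Not at hcon
      apply hmem
      have : Finsupp.single 0 d = α := by
        ext i
        refine Fin.cases ?_ (fun i => ?_) i
        · rw [Finsupp.degree_eq_sum, Fin.sum_univ_succ] at hdeg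
          simp only [hcon, Finset.sum_const_zero, add_zero] at hdeg
          simpa using hdeg.symm
        · rw [hcon i, Finsupp.single_eq_of_ne (Fin.succ_ne_zero i)]
      rwa [this]
    obtain ⟨i, hi⟩ := this
    rw [Finset.prod_eq_zero (Finset.mem_univ i.succ), mul_zero]
    rw [Pi.single_eq_of_ne (Fin.succ_ne_zero i)]
    exact zero_pow hi

lemma coeff_rot_top (u : OrthonormalBasis (Fin (k+1)) ℂ (Sp k)) (r : MvPolynomial (Fin (k+1)) ℂ)
    {d : ℕ} (hr : r.totalDegree ≤ d) :
    coeff (Finsupp.single 0 d) (rot u r) =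
      eval (fun i => (u 0) i) (homogeneousComponent d r) := by
  rw [rot_sum u r hr, coeff_sum, Finset.sum_range_succ, Finset.sum_eq_zero, zero_add]
  · rw [← eval_single_homog (rot_homog u (homogeneousComponent_isHomogeneous d r)), eval_rot]
    congr 2
    funext i
    simp [pt, Pi.single_apply]
  · intro i hi
    apply (rot_homog u (homogeneousComponent_isHomogeneous i r)).coeff_eq_zero
    have := Finset.mem_range.1 hi
    rw [Finsupp.degree_single]
    omega

lemma eval_smul_homog {F : MvPolynomial (Fin (k+1)) ℂ} {d : ℕ} (hF : F.IsHomogeneous d) (c : ℂ)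
    (x : Fin (k+1) → ℂ) : eval (fun i => c * x i) F = c ^ d * eval x F := by
  rw [eval_eq', eval_eq', Finset.mul_sum]
  refine Finset.sum_congr rfl fun α hα => ?_
  have hdeg : α.degree = d := by
    by_contra h
    exact (mem_support_iff.1 hα) (hF.coeff_eq_zero h)
  have h1 : ∏ i, (c * x i) ^ α i = c ^ d * ∏ i, x i ^ α i := by
    simp only [mul_pow, Finset.prod_mul_distrib]
    rw [Finset.prod_pow_eq_pow_sum, ← hdeg, Finsupp.degree_eq_sum]
  rw [h1]
  ring

/-- A unit vector where a nonzero form does not vanish, completed to an orthonormal basis. -/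
lemma exists_basis {F : MvPolynomial (Fin (k+1)) ℂ} {d : ℕ} (hF : F.IsHomogeneous d) (hF0 : F ≠ 0)
    (hd : 1 ≤ d) : ∃ u : OrthonormalBasis (Fin (k+1)) ℂ (Sp k), eval (fun i => (u 0) i) F ≠ 0 := by
  have h1 : ∃ x : Fin (k+1) → ℂ, eval x F ≠ 0 := by
    by_contra hcon
    push Not at hcon
    apply hF0
    apply MvPolynomial.funext
    intro x
    rw [hcon x, map_zero]
  obtain ⟨x, hx⟩ := h1
  set y : Sp k := WithLp.toLp 2 x with hy
  have hy0 : y ≠ 0 := by
    intro h0
    have hx0 : x = fun _ => 0 * 0 := by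
      funext i
      have := congrArg (fun v : Sp k => v i) h0
      simpa [hy] using this
    rw [hx0, eval_smul_homog hF 0 (fun _ => 0), zero_pow (by omega), zero_mul] at hx
    exact hx rfl
  have hn : ‖y‖ ≠ 0 := norm_ne_zero_iff.2 hy0
  set v : Sp k := ((‖y‖⁻¹ : ℝ) : ℂ) • y with hv
  have hvn : ‖v‖ = 1 := by
    rw [hv, norm_smul, Complex.norm_real, norm_inv, norm_norm, inv_mul_cancel₀ hn]
  obtain ⟨u, hu⟩ := Orthonormal.exists_orthonormalBasis_extension_of_card_eq (𝕜 := ℂ)
    (E := Sp k) (ι := Fin (k+1)) (by simp) (v := fun _ => v) (s := {0}) (by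
      constructor
      · intro i
        exact hvn
      · intro i j hij
        exact absurd (Subsingleton.elim i j) hij)
  refine ⟨u, ?_⟩
  rw [hu 0 (Set.mem_singleton 0)]
  have h2 : (fun i => v i) = fun i => ((‖y‖⁻¹ : ℝ) : ℂ) * x i := by
    funext i
    simp [hv, hy]
  rw [h2, eval_smul_homog hF]
  apply mul_ne_zero _ hx
  apply pow_ne_zero
  rw [Complex.ofReal_ne_zero]
  exact inv_ne_zero hn

/-- The degree bound. -/
theorem degree_bound {d : ℕ} (hd : 1 ≤ d)
    (p : Fin N → MvPolynomial (Fin (k+1)) ℂ) (q : MvPolynomial (Fin (k+1)) ℂ)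
    (g : Fin a → MvPolynomial (Fin (k+1)) ℂ) (h : Fin b → MvPolynomial (Fin (k+1)) ℂ)
    (hcop : ∀ r : MvPolynomial (Fin (k+1)) ℂ, r ∣ q → (∀ j, r ∣ p j) → IsUnit r)
    (hq : ∀ z : Fin (k+1) → ℂ, ∑ i, ‖z i‖ ^ 2 < 1 → eval z q ≠ 0)
    (hdeg : max q.totalDegree (Finset.univ.sup fun j => (p j).totalDegree) = d)
    (hli : LinearIndependent ℂ (Sum.elim g h))
    (hK : ∀ z : Fin (k+1) → ℂ, ‖eval z q‖ ^ 2 - ∑ j, ‖eval z (p j)‖ ^ 2 =
      (1 - ∑ i, ‖z i‖ ^ 2) * (∑ j, ‖eval z (g j)‖ ^ 2 - ∑ j, ‖eval z (h j)‖ ^ 2)) :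
    k * d + 1 ≤ N + k * b := by
  classical
  have hqd : q.totalDegree ≤ d := hdeg ▸ le_max_left _ _
  have hpd : ∀ j, (p j).totalDegree ≤ d := fun j =>
    hdeg ▸ (Finset.le_sup (f := fun j => (p j).totalDegree) (Finset.mem_univ j)).trans
      (le_max_right _ _)
  -- some polynomial attains the degree
  have hatt : ∃ F : MvPolynomial (Fin (k+1)) ℂ, (F = q ∨ ∃ j, F = p j) ∧ F.totalDegree = d := by
    rcases max_choice q.totalDegree (Finset.univ.sup fun j => (p j).totalDegree) with hc | hc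
    · exact ⟨q, Or.inl rfl, by rw [← hc, hdeg]⟩
    · rw [hc] at hdeg
      have hne : (Finset.univ : Finset (Fin N)).Nonempty := by
        by_contra hemp
        rw [Finset.not_nonempty_iff_eq_empty] at hemp
        rw [hemp, Finset.sup_empty] at hdeg
        simp at hdeg
        omega
      obtain ⟨j, _, hj⟩ := Finset.exists_mem_eq_sup Finset.univ hne (fun j => (p j).totalDegree)
      exact ⟨p j, Or.inr ⟨j, rfl⟩, by rw [← hj, hdeg]⟩
  obtain ⟨F, hF, hFd⟩ := hatt
  have hF0 : homogeneousComponent d F ≠ 0 := by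
    intro h0
    have hFne : F ≠ 0 := by
      rintro rfl
      simp at hFd
      omega
    obtain ⟨α, hα, hdα⟩ : ∃ α ∈ F.support, α.degree = d := by
      have hne : F.support.Nonempty := by
        rwa [Finset.nonempty_iff_ne_empty, Ne, MvPolynomial.support_eq_empty]
      obtain ⟨α, hα, h2⟩ := Finset.exists_mem_eq_sup F.support hne (fun s => s.sum fun _ e => e)
      refine ⟨α, hα, ?_⟩
      rw [← hFd]
      exact h2.symm
    have h1 := coeff_homogeneousComponent d F α
    rw [if_pos hdα, h0, coeff_zero] at h1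
    exact (mem_support_iff.1 hα) h1.symm
  obtain ⟨u, hu⟩ := exists_basis (homogeneousComponent_isHomogeneous d F) hF0 hd
  have hinj : Function.Injective (rot u) := by
    intro x y hxy
    rw [← irot_rot u x, hxy, irot_rot]
  refine bound_aux (k := k) hd (fun j => rot u (p j)) (rot u q) (fun j => rot u (g j))
    (fun j => rot u (h j)) ?_ ?_ (totalDegree_rot_le u q hqd)
    (fun j => totalDegree_rot_le u (p j) (hpd j)) ?_ ?_ ?_
  · intro r hr hrp
    have h1 : IsUnit (irot u r) := by
      apply hcop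
      · obtain ⟨s, hs⟩ := hr
        exact ⟨irot u s, by rw [← map_mul, ← hs, irot_rot]⟩
      · intro j
        obtain ⟨s, hs⟩ := hrp j
        exact ⟨irot u s, by rw [← map_mul, ← hs, irot_rot]⟩
    have h2 := h1.map (rot u)
    rwa [rot_irot] at h2
  · intro z hz
    rw [eval_rot]
    apply hq
    rwa [norm_pt]
  · rcases hF with rfl | ⟨j, rfl⟩
    · left
      rw [coeff_rot_top u _ hqd]
      exact hu
    · right
      refine ⟨j, ?_⟩
      rw [coeff_rot_top u _ (hpd j)]
      exact hu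
  · have h1 : Sum.elim (fun j => rot u (g j)) (fun j => rot u (h j)) =
        (rot u).toLinearMap ∘ Sum.elim g h := by
      funext x
      rcases x with x | x <;> rfl
    rw [h1]
    exact hli.map' _ (LinearMap.ker_eq_bot.2 hinj)
  · intro z
    simp only [eval_rot]
    rw [hK (pt u z), norm_pt]

end Pool.Agent.Helper28.Ball
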