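import Mathlib
import Pool.Agent.Helper28.Ball.Rot
import Pool.Agent.Helper28.Ball.Families
import Pool.Agent.Helper28.Ball.Indep

/-!
Degree bound and degree descent for rational proper maps between balls.
-/

namespace Pool.Agent.Helper28.Ball

open MvPolynomial Finset

theorem bound_general {n N d a b : ℕ} (hn : 1 ≤ n) (hd : 1 ≤ d)
    (p : Fin N → MvPolynomial (Fin n) ℂ) (q : MvPolynomial (Fin n) ℂ)
    (hf : IsProperMap p q) (hdeg : mapDegree p q = d)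
    (g : Fin a → MvPolynomial (Fin n) ℂ) (h : Fin b → MvPolynomial (Fin n) ℂ)
    (hK : ∀ z : Fin n → ℂ, ‖eval z q‖ ^ 2 - ∑ j, ‖eval z (p j)‖ ^ 2 =
      (1 - ∑ i, ‖z i‖ ^ 2) * (∑ j, ‖eval z (g j)‖ ^ 2 - ∑ j, ‖eval z (h j)‖ ^ 2)) :
    (n - 1) * d + 1 ≤ N + (n - 1) * b := by
  obtain ⟨k, rfl⟩ : ∃ k, n = k + 1 := ⟨n - 1, by omega⟩
  obtain ⟨a', b', g', h', hb', hli, hg'⟩ := exists_indep g h
  have h1 := degree_bound (d := d) hd p q g' h' hf.1 hf.2.1 hdeg hli (by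
    intro z
    rw [hg' z]
    exact hK z)
  rw [Nat.add_sub_cancel]
  have h2 : k * b' ≤ k * b := Nat.mul_le_mul_left k hb'
  omega

theorem descent {n N d a b : ℕ} (hn : 1 ≤ n) (hd : 1 < d)
    (p : Fin N → MvPolynomial (Fin n) ℂ) (q : MvPolynomial (Fin n) ℂ)
    (hf : IsProperMap p q) (hdeg : mapDegree p q = d)
    (g : Fin a → MvPolynomial (Fin n) ℂ) (h : Fin b → MvPolynomial (Fin n) ℂ)
    (hK : ∀ z : Fin n → ℂ, ‖eval z q‖ ^ 2 - ∑ j, ‖eval z (p j)‖ ^ 2 =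
      (1 - ∑ i, ‖z i‖ ^ 2) * (∑ j, ‖eval z (g j)‖ ^ 2 - ∑ j, ‖eval z (h j)‖ ^ 2))
    (hb : b ≤ 1 ∨ (n = 2 ∧ b + 1 ≤ N)) :
    ∃ p' : Fin N → MvPolynomial (Fin n) ℂ, IsProperMap p' 1 ∧
      (∀ j, ∃ (α : Fin n →₀ ℕ) (c : ℂ), p' j = monomial α c) ∧ mapDegree p' 1 = d - 1 := by
  have h1 := bound_general hn (by omega) p q hf hdeg g h hK
  rcases hb with hb | ⟨rfl, hb⟩
  · obtain ⟨k, rfl⟩ : ∃ k, n = k + 1 := ⟨n - 1, by omega⟩
    rw [Nat.add_sub_cancel] at h1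
    apply whitney (by omega)
    have h2 : k * b ≤ k * 1 := Nat.mul_le_mul_left k hb
    have h3 : k * d = k * (d - 1) + k := by
      obtain ⟨e, rfl⟩ : ∃ e, d = e + 1 := ⟨d - 1, by omega⟩
      rw [Nat.add_sub_cancel]
      ring
    omega
  · have h2 : (2 - 1) * d = d := by omega
    have h3 : (2 - 1) * b = b := by omega
    rw [h2, h3] at h1
    rcases Nat.even_or_odd' (d - 1) with ⟨m, hm | hm⟩
    · obtain ⟨m', rfl⟩ : ∃ m', m = m' + 1 := ⟨m - 1, by omega⟩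
      have h4 := even_family (N := N) (m := m') (by omega)
      rw [hm, mul_add, mul_one]
      exact h4
    · have h4 := odd_family (N := N) (m := m) (by omega)
      rw [hm]
      exact h4

end Pool.Agent.Helper28.Ball
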